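import Pool.Agent.X269.CT.Final

/-!
The Jacobian determinant of basic invariants does not vanish at points with trivial stabiliser.
-/

set_option autoImplicit false

namespace Pool.Agent.X269.CT

open MvPolynomial Pool.Agent.W467.Sym

variable {K : Type} [Field K] {V : Type} [Fintype V] [DecidableEq V]

omit [Fintype V] [DecidableEq V] in
theorem grad_mul' (F G : MvPolynomial V K) (x : V → K) :
    grad (F * G) x = eval x F • grad G x + eval x G • grad F x := by
  funext i
  simp only [grad, Derivation.leibniz, map_add, smul_eq_mul, map_mul, Pi.add_apply, Pi.smul_apply]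

omit [DecidableEq V] in
theorem grad_act (g : Matrix V V K) (F : MvPolynomial V K) (x : V → K) :
    grad (act g F) x = ∑ k, eval (g.mulVec x) (pderiv k F) • g k := by
  classical
  rw [act, grad_aeval]
  refine Finset.sum_congr rfl fun k _ => ?_
  congr 1
  · congr 2
    funext i
    simp [Matrix.mulVec, dotProduct]
  · funext j
    rw [grad, map_sum, map_sum, Finset.sum_eq_single j]
    · rw [pderiv_C_mul, pderiv_X_self]
      simp
    · intro l _ hl
      rw [pderiv_C_mul, pderiv_X_of_ne hl]
      simp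
    · intro h; exact absurd (Finset.mem_univ _) h

/-- an invariant with a given gradient at a point with trivial stabiliser -/
theorem exists_invariant (W : Subgroup (Matrix.GeneralLinearGroup V K)) [Finite W] (x : V → K)
    (hx : ∀ g ∈ W, g ≠ 1 → (g : Matrix V V K).mulVec x ≠ x) (v : V → K) :
    ∃ F : MvPolynomial V K, (∀ g ∈ W, act (g : Matrix V V K) F = F) ∧ grad F x = v := by
  classical
  haveI := Fintype.ofFinite W
  have h1 : ∀ g : {g : W // g ≠ 1}, ∃ i : V,
      (((g.1 : Matrix.GeneralLinearGroup V K) : Matrix V V K).mulVec x) i ≠ x i := by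
    intro g
    have h2 := hx g.1.1 g.1.2 (fun h => g.2 (Subtype.ext h))
    by_contra h3
    push Not at h3
    exact h2 (funext fun i => h3 i)
  choose ι hι using h1
  set q : MvPolynomial V K := ∏ g : {g : W // g ≠ 1}, (X (ι g) -
    C ((((g.1 : Matrix.GeneralLinearGroup V K) : Matrix V V K).mulVec x) (ι g))) with hq
  have hqx : eval x q ≠ 0 := by
    rw [hq, map_prod, Finset.prod_ne_zero_iff]
    intro g _
    rw [map_sub, eval_X, eval_C]
    exact sub_ne_zero.2 (hι g).symm
  have hqg : ∀ g : W, g ≠ 1 →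
      eval (((g : Matrix.GeneralLinearGroup V K) : Matrix V V K).mulVec x) q = 0 := by
    intro g hg
    rw [hq, map_prod]
    apply Finset.prod_eq_zero (Finset.mem_univ (⟨g, hg⟩ : {g : W // g ≠ 1}))
    rw [map_sub, eval_X, eval_C, sub_self]
  set l : MvPolynomial V K := ∑ i, C (v i) * (X i - C (x i)) with hl
  have hlx : eval x l = 0 := by
    rw [hl, map_sum]
    exact Finset.sum_eq_zero fun i _ => by simp
  have hlg : grad l x = v := by
    funext j
    rw [grad, hl, map_sum, map_sum, Finset.sum_eq_single j]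
    · rw [pderiv_C_mul, map_sub, pderiv_X_self, pderiv_C]
      simp
    · intro i _ hi
      rw [pderiv_C_mul, map_sub, pderiv_X_of_ne hi, pderiv_C]
      simp
    · intro h; exact absurd (Finset.mem_univ _) h
  set h : MvPolynomial V K := C ((eval x q * eval x q)⁻¹) * (l * (q * q)) with hh
  have hgx : grad h x = v := by
    rw [hh, grad_mul', grad_mul', hlx, hlg, map_mul, map_mul, hlx]
    have h2 : grad (C ((eval x q * eval x q)⁻¹) : MvPolynomial V K) x = 0 := by
      funext j; simp [grad]
    rw [h2, eval_C, zero_smul, zero_add, smul_zero, add_zero, smul_smul,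
      inv_mul_cancel₀ (mul_ne_zero hqx hqx), one_smul]
  have hgg : ∀ g : W, g ≠ 1 → ∀ k,
      eval (((g : Matrix.GeneralLinearGroup V K) : Matrix V V K).mulVec x) (pderiv k h) = 0 := by
    intro g hg k
    have h3 : grad h (((g : Matrix.GeneralLinearGroup V K) : Matrix V V K).mulVec x) = 0 := by
      rw [hh, grad_mul', grad_mul', grad_mul', map_mul, map_mul, hqg g hg]
      simp [hqg g hg]
    exact congrFun h3 k
  refine ⟨∑ g : W, act ((g : Matrix.GeneralLinearGroup V K) : Matrix V V K) h, ?_, ?_⟩
  · intro g hg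
    rw [map_sum]
    refine Fintype.sum_equiv (Equiv.mulRight (⟨g, hg⟩ : W)) _ _ fun g' => ?_
    rw [← act_mul]
    rfl
  · have h4 : grad (∑ g : W, act ((g : Matrix.GeneralLinearGroup V K) : Matrix V V K) h) x =
        ∑ g : W, grad (act ((g : Matrix.GeneralLinearGroup V K) : Matrix V V K) h) x := by
      funext j
      simp only [grad, map_sum, Finset.sum_apply]
    rw [h4, Finset.sum_eq_single 1]
    · have h5 : (((1 : W) : Matrix.GeneralLinearGroup V K) : Matrix V V K) = 1 := rfl
      rw [h5, act_one]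
      exact hgx
    · intro g _ hg
      rw [grad_act]
      exact Finset.sum_eq_zero fun k _ => by rw [hgg g hg k, zero_smul]
    · intro h; exact absurd (Finset.mem_univ _) h

/-- the Jacobian determinant of basic invariants does not vanish at a point with trivial
stabiliser -/
theorem jac_ne_zero (W : Subgroup (Matrix.GeneralLinearGroup V K)) [Finite W]
    (f : V → MvPolynomial V K)
    (hgen : ∀ F, (∀ g ∈ W, act (g : Matrix V V K) F = F) → F ∈ Algebra.adjoin K (Set.range f))
    (x : V → K) (hx : ∀ g ∈ W, g ≠ 1 → (g : Matrix V V K).mulVec x ≠ x) :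
    eval x (Matrix.det (Matrix.of fun i j => pderiv j (f i))) ≠ 0 := by
  classical
  have h1 : ⊤ ≤ Submodule.span K (Set.range fun i => grad (f i) x) := by
    intro v _
    obtain ⟨F, hF, rfl⟩ := exists_invariant W x hx v
    have h2 := hgen F hF
    rw [Algebra.adjoin_range_eq_range_aeval] at h2
    obtain ⟨P, rfl⟩ := h2
    have h3 : grad (aeval f P) x ∈ Submodule.span K (Set.range fun i => grad (f i) x) := by
      rw [grad_aeval]
      exact Submodule.sum_mem _ fun k _ =>
        Submodule.smul_mem _ _ (Submodule.subset_span ⟨k, rfl⟩)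
    exact h3
  have h2 : LinearIndependent K (fun i => grad (f i) x) :=
    linearIndependent_of_top_le_span_of_card_eq_finrank h1 (by
      rw [Module.finrank_fintype_fun_eq_card])
  have h3 : IsUnit (Matrix.of fun i => grad (f i) x) :=
    Matrix.linearIndependent_rows_iff_isUnit.1 h2
  rw [RingHom.map_det]
  have h4 : (eval x).mapMatrix (Matrix.of fun i j => pderiv j (f i)) =
      Matrix.of fun i => grad (f i) x := by
    ext i j
    rfl
  rw [h4]
  exact ((Matrix.isUnit_iff_isUnit_det _).1 h3).ne_zero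

/-- if the Jacobian determinant vanishes on the variety, the variety is degenerate -/
theorem lin_of_jac_mem [IsAlgClosed K] (I : Ideal (MvPolynomial V K)) [hI : I.IsPrime]
    (W : Subgroup (Matrix.GeneralLinearGroup V K)) [Finite W]
    (f : V → MvPolynomial V K)
    (hgen : ∀ F, (∀ g ∈ W, act (g : Matrix V V K) F = F) → F ∈ Algebra.adjoin K (Set.range f))
    (hJ : Matrix.det (Matrix.of fun i j => pderiv j (f i)) ∈ I) :
    ∃ u : V → K, u ≠ 0 ∧ lform u ∈ I := by
  classical
  haveI := Fintype.ofFinite W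
  by_contra hno
  push Not at hno
  have h1 : ∀ g : {g : W // g ≠ 1}, ∃ i : V,
      (fun j => ((g.1 : Matrix.GeneralLinearGroup V K) : Matrix V V K) i j -
        (1 : Matrix V V K) i j) ≠ 0 := by
    intro g
    by_contra h3
    push Not at h3
    apply g.2
    apply Subtype.ext
    apply Units.ext
    ext i j
    exact sub_eq_zero.1 (congrFun (h3 i) j)
  choose ι hι using h1
  have h2 : ∏ g : {g : W // g ≠ 1}, lform (fun j =>
      ((g.1 : Matrix.GeneralLinearGroup V K) : Matrix V V K) (ι g) j -
        (1 : Matrix V V K) (ι g) j) ∉ I := by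
    intro h
    rw [hI.prod_mem_iff] at h
    obtain ⟨g, -, hg⟩ := h
    exact hno _ (hι g) hg
  obtain ⟨x, hx, hx2⟩ : ∃ x ∈ cone I, eval x (∏ g : {g : W // g ≠ 1}, lform (fun j =>
      ((g.1 : Matrix.GeneralLinearGroup V K) : Matrix V V K) (ι g) j -
        (1 : Matrix V V K) (ι g) j)) ≠ 0 := by
    by_contra h
    push Not at h
    exact h2 (mem_of_cone I h)
  rw [map_prod, Finset.prod_ne_zero_iff] at hx2
  refine jac_ne_zero W f hgen x ?_ (hx _ hJ)
  intro g hg hg1 hgx
  have h3 := hx2 ⟨⟨g, hg⟩, fun h => hg1 (congrArg Subtype.val h)⟩ (Finset.mem_univ _)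
  apply h3
  rw [lform, map_sum]
  simp only [map_mul, eval_C, eval_X, sub_mul, Finset.sum_sub_distrib]
  have h4 := congrFun hgx (ι ⟨⟨g, hg⟩, fun h => hg1 (congrArg Subtype.val h)⟩)
  rw [Matrix.mulVec, dotProduct] at h4
  rw [h4, sub_eq_zero]
  rw [Finset.sum_eq_single (ι ⟨⟨g, hg⟩, fun h => hg1 (congrArg Subtype.val h)⟩)]
  · simp
  · intro j _ hj
    rw [Matrix.one_apply_ne (Ne.symm hj), zero_mul]
  · intro h; exact absurd (Finset.mem_univ _) h

/-- The theorem for finite groups generated by reflections; in codimension two the variety may be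
contained in a reflecting hyperplane. -/
theorem main_refl' [IsAlgClosed K] [CharZero K] {r : ℕ}
    (hn : r + 5 ≤ Fintype.card V)
    (I : Ideal (MvPolynomial V K)) (hI : I.IsPrime)
    (hhom : ∀ F ∈ I, ∀ d, homogeneousComponent d F ∈ I)
    (hne : ∃ x ∈ cone I, x ≠ 0)
    (hsm : ∀ x ∈ cone I, x ≠ 0 → Module.finrank K (conormal I x) = r)
    (W : Subgroup (Matrix.GeneralLinearGroup V K)) [Finite W]
    (hW : W = Subgroup.closure {g | g ∈ W ∧ ∃ v α : V → K,
      (g : Matrix V V K) = 1 + Matrix.vecMulVec v α})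
    (hst : ∀ g ∈ W, ∀ x ∈ cone I, (g : Matrix V V K).mulVec x ∈ cone I)
    (f : V → MvPolynomial V K) (d : V → ℕ) (hd : ∀ i, 0 < d i)
    (hf : ∀ i, (f i).IsHomogeneous (d i))
    (hinv : ∀ g ∈ W, ∀ i, act (g : Matrix V V K) (f i) = f i)
    (hgen : ∀ F, (∀ g ∈ W, act (g : Matrix V V K) F = F) → F ∈ Algebra.adjoin K (Set.range f))
    (hJ : r = 2 ∨ Matrix.det (Matrix.of fun i j => pderiv j (f i)) ∉ I)
    (p : V → Prop) [DecidablePred p] (hpr : Fintype.card {i // p i} + 2 = r)
    (hp : ∀ i, p i → f i ∈ I) (t : V) (ht : ¬ p t) (z : V → K)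
    (hz : ∀ i, i ≠ t → eval z (f i) = 0) (hzt : eval z (f t) ≠ 0)
    (hcut1 : z ∉ cone I → ∃ F ∈ I, F.totalDegree < 2 * d t ∧ eval z F ≠ 0)
    (hcut2 : z ∈ cone I → conormal I z ≤
      Submodule.span K {ξ | ∃ F ∈ I, F.totalDegree < 2 * d t ∧ ξ = grad F z}) :
    Pool.Agent.H929R2.Hart.IsCI r I := by
  classical
  have := hI
  by_cases hm : Matrix.det (Matrix.of fun i j => pderiv j (f i)) ∈ I
  · rcases hJ with rfl | hJ
    · obtain ⟨u, hu0, hu⟩ := lin_of_jac_mem I W f hgen hm
      apply Pool.Agent.H929R2.Hart.isCI_of_linsub 2 I hI hhom hsm hne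
      have h1 : 0 < Module.finrank K (Pool.Agent.H929R2.Hart.linsub I) := by
        rw [Module.finrank_pos_iff]
        exact ⟨⟨u, hu⟩, 0, fun h => hu0 (congrArg Subtype.val h)⟩
      omega
    · exact absurd hm hJ
  · exact main_refl hn I hI hhom hne hsm W hW hst f d hd hf hinv hgen hm p hpr hp t ht z hz hzt
      hcut1 hcut2

end Pool.Agent.X269.CT
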