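import Pool.Agent.X269.CT.Z2

/-!
Polynomials in one distinguished variable.
-/

set_option autoImplicit false

namespace Pool.Agent.X269.CT

open MvPolynomial

variable {K : Type*} [Field K] {V : Type*} [DecidableEq V]

/-- polynomials in the variable `t` -/
noncomputable def eqv (K : Type*) [Field K] {V : Type*} [DecidableEq V] (t : V) :
    MvPolynomial V K ≃ₐ[K] Polynomial (MvPolynomial {k // k ≠ t} K) :=
  (renameEquiv K (Equiv.optionSubtypeNe t).symm).trans (optionEquivLeft K {k // k ≠ t})

theorem eqv_symm_C (t : V) (s : MvPolynomial {k // k ≠ t} K) :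
    (eqv K t).symm (Polynomial.C s) = rename Subtype.val s := by
  rw [AlgEquiv.symm_apply_eq]
  induction s using MvPolynomial.induction_on with
  | C c =>
    rw [rename_C, eqv, AlgEquiv.trans_apply]
    simp [optionEquivLeft_C]
  | add a b ha hb => rw [map_add, map_add, map_add, ha, hb]
  | mul_X a k ha =>
    rw [map_mul, map_mul, map_mul, ha, rename_X]
    congr 1
    rw [eqv, AlgEquiv.trans_apply]
    have : (Equiv.optionSubtypeNe t).symm k.1 = some k := by
      rw [Equiv.symm_apply_eq]
      simp
    simp [this]

theorem eqv_symm_X (t : V) : (eqv K t).symm Polynomial.X = X t := by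
  rw [AlgEquiv.symm_apply_eq, eqv, AlgEquiv.trans_apply]
  simp

theorem Dc_add {V : Type*} (j : V) (T U : Polynomial (MvPolynomial V K)) :
    Dc j (T + U) = Dc j T + Dc j U := by
  ext1 n
  rw [coeff_Dc, Polynomial.coeff_add, Polynomial.coeff_add, coeff_Dc, coeff_Dc, map_add]

theorem Dc_monomial {V : Type*} (j : V) (n : ℕ) (s : MvPolynomial V K) :
    Dc j (Polynomial.monomial n s) = Polynomial.monomial n (pderiv j s) := by
  ext1 i
  rw [coeff_Dc, Polynomial.coeff_monomial, Polynomial.coeff_monomial]
  split_ifs
  · rfl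
  · rw [map_zero]

theorem eqv_symm_monomial (t : V) (n : ℕ) (s : MvPolynomial {k // k ≠ t} K) :
    (eqv K t).symm (Polynomial.monomial n s) = rename Subtype.val s * X t ^ n := by
  rw [← Polynomial.C_mul_X_pow_eq_monomial, map_mul, map_pow, eqv_symm_C, eqv_symm_X]

theorem eqv_symm_Dc (t : V) (j : {k // k ≠ t}) (T : Polynomial (MvPolynomial {k // k ≠ t} K)) :
    (eqv K t).symm (Dc j T) = pderiv j.1 ((eqv K t).symm T) := by
  induction T using Polynomial.induction_on' with
  | add p q hp hq => rw [Dc_add, map_add, map_add, map_add, hp, hq]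
  | monomial n s =>
    rw [Dc_monomial, eqv_symm_monomial, eqv_symm_monomial, Derivation.leibniz,
      Derivation.leibniz_pow, pderiv_X_of_ne (Ne.symm j.2), smul_zero, smul_zero, smul_zero,
      zero_add, pderiv_rename Subtype.val_injective, smul_eq_mul, mul_comm]

theorem pderiv_rename_self (t : V) (s : MvPolynomial {k // k ≠ t} K) :
    pderiv t (rename (Subtype.val : {k // k ≠ t} → V) s) = 0 := by
  induction s using MvPolynomial.induction_on with
  | C c => simp
  | add a b ha hb => rw [map_add, map_add, ha, hb, add_zero]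
  | mul_X a k ha =>
    rw [map_mul, rename_X, Derivation.leibniz, ha, pderiv_X_of_ne k.2]
    simp

theorem weight_mapDomain {V V' : Type*} (f : V → V') (wgt : V' → ℕ) (v : V →₀ ℕ) :
    Finsupp.weight wgt (v.mapDomain f) = Finsupp.weight (wgt ∘ f) v := by
  rw [Finsupp.weight_apply, Finsupp.weight_apply, Finsupp.sum_mapDomain_index]
  · rfl
  · intro; rw [zero_smul]
  · intro _ a b; rw [add_smul]

theorem comp_rename {V V' : Type*} (f : V → V') (wgt : V' → ℕ) (d : ℕ) (s : MvPolynomial V K) :
    rename f (weightedHomogeneousComponent (wgt ∘ f) d s) =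
      weightedHomogeneousComponent wgt d (rename f s) := by
  classical
  induction s using MvPolynomial.induction_on' with
  | monomial u c =>
    have h1 : IsWeightedHomogeneous (wgt ∘ f) (monomial u c) (Finsupp.weight (wgt ∘ f) u) :=
      isWeightedHomogeneous_monomial _ _ _ rfl
    have h2 : IsWeightedHomogeneous wgt (monomial (u.mapDomain f) c)
        (Finsupp.weight (wgt ∘ f) u) :=
      isWeightedHomogeneous_monomial _ _ _ (weight_mapDomain f wgt u)
    rw [rename_monomial, weightedHomogeneousComponent_of_mem h1,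
      weightedHomogeneousComponent_of_mem h2]
    split_ifs
    · rw [rename_monomial]
    · rw [map_zero]
  | add p q hp hq => rw [map_add, map_add, hp, hq, map_add, map_add]

/-- weights of the coefficients -/
theorem eqv_weight (t : V) (wgt : V → ℕ) {P : MvPolynomial V K} {d : ℕ}
    (hP : IsWeightedHomogeneous wgt P d) (i : ℕ) (v : {k // k ≠ t} →₀ ℕ)
    (h : coeff v ((eqv K t P).coeff i) ≠ 0) :
    Finsupp.weight (wgt ∘ Subtype.val) v + i * wgt t = d := by
  classical
  set σ := (Equiv.optionSubtypeNe t).symm with hσ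
  rw [eqv, AlgEquiv.trans_apply, optionEquivLeft_coeff_coeff] at h
  have h1 : v.optionElim i = (((v.optionElim i).mapDomain σ.symm).mapDomain σ) := by
    rw [← Finsupp.mapDomain_comp]
    have : (σ ∘ σ.symm : Option {k // k ≠ t} → Option {k // k ≠ t}) = id := by ext x; simp
    rw [this, Finsupp.mapDomain_id]
  rw [h1] at h
  have h2 : (renameEquiv K σ) P = rename σ P := rfl
  rw [h2, coeff_rename_mapDomain _ σ.injective] at h
  have h3 := hP h
  rw [weight_mapDomain, Finsupp.weight_apply, Finsupp.sum_option_index] at h3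
  · rw [Finsupp.optionElim_apply_none, Finsupp.some_optionElim] at h3
    rw [← h3, Finsupp.weight_apply, add_comm]
    congr 1
  · intro; rw [zero_smul]
  · intro _ a b; rw [add_smul]

/-- polynomials of weight smaller than twice the weight of the variable -/
theorem eqv_low (t : V) (wgt : V → ℕ) {P : MvPolynomial V K} {d : ℕ}
    (hP : IsWeightedHomogeneous wgt P d) (hd : d < 2 * wgt t) :
    eqv K t P = Polynomial.C ((eqv K t P).coeff 1) * Polynomial.X +
      Polynomial.C ((eqv K t P).coeff 0) ∧
    IsWeightedHomogeneous (wgt ∘ Subtype.val) ((eqv K t P).coeff 0) d ∧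
    (∀ κ, wgt t + κ = d → IsWeightedHomogeneous (wgt ∘ Subtype.val) ((eqv K t P).coeff 1) κ) ∧
    (d < wgt t → (eqv K t P).coeff 1 = 0) := by
  refine ⟨?_, ?_, ?_, ?_⟩
  · ext1 i
    rcases i with _ | _ | i
    · simp
    · simp [Polynomial.coeff_C]
    · rw [Polynomial.coeff_add, Polynomial.coeff_C_mul, Polynomial.coeff_X,
        Polynomial.coeff_C, if_neg (by omega), if_neg (by omega), mul_zero, add_zero]
      apply MvPolynomial.ext
      intro v
      rw [coeff_zero]
      by_contra h
      have := eqv_weight t wgt hP _ v h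
      have h2 : 2 * wgt t ≤ (i + 1 + 1) * wgt t := Nat.mul_le_mul_right _ (by omega)
      omega
  · intro v h
    have := eqv_weight t wgt hP _ v h
    omega
  · intro κ hκ v h
    have := eqv_weight t wgt hP _ v h
    omega
  · intro hlt
    apply MvPolynomial.ext
    intro v
    rw [coeff_zero]
    by_contra h
    have := eqv_weight t wgt hP _ v h
    omega

end Pool.Agent.X269.CT
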