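import Pool.Agent.X269.CT.Final
import Pool.Agent.W467.Sym.Transfer

/-!
Smooth varieties of codimension two stable under `G(m, 1, a)`.
-/

set_option autoImplicit false

namespace Pool.Agent.X269.CT

open MvPolynomial Pool.Agent.W467.Sym

/-- The theorem for ideals of `K[x_1, …, x_a, y_j]`. -/
theorem expl_sum {K : Type} [Field K] {a : ℕ} {τ : Type} [Fintype τ] [IsAlgClosed K] [CharZero K]
    (I : Ideal (MvPolynomial (Fin a ⊕ τ) K))
    [hI : I.IsPrime] (hhom : ∀ F ∈ I, ∀ d, homogeneousComponent d F ∈ I)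
    (hne : ∃ x ∈ cone I, x ≠ 0)
    {m : ℕ} (hm : 0 < m) (ha : 1 ≤ a) (hcard : 7 ≤ Fintype.card (Fin a ⊕ τ))
    (hsm : ∀ x ∈ cone I, x ≠ 0 → Module.finrank K (conormal I x) = 2)
    (hst : ∀ s : Equiv.Perm (Fin a), ∀ f ∈ I, rho s f ∈ I)
    (hroot : ∀ t : Fin a → K, (∀ i, t i ^ m = 1) → ∀ f ∈ I, scal t f ∈ I)
    (hX : 1 < m → ∀ i, (X (Sum.inl i) : MvPolynomial (Fin a ⊕ τ) K) ∉ I)
    (hXX : ∀ i j, i ≠ j → (X (Sum.inl j) ^ m - X (Sum.inl i) ^ m : MvPolynomial (Fin a ⊕ τ) K) ∉ I)
    {ζ : K} (hζ : IsPrimitiveRoot ζ (m * a))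
    (hcut1 : (Sum.elim (fun i => ζ ^ i.1) (fun _ => 0) : Fin a ⊕ τ → K) ∉ cone I →
      ∃ F ∈ I, F.totalDegree < 2 * (m * a) ∧
        eval (Sum.elim (fun i => ζ ^ i.1) (fun _ => 0) : Fin a ⊕ τ → K) F ≠ 0)
    (hcut2 : (Sum.elim (fun i => ζ ^ i.1) (fun _ => 0) : Fin a ⊕ τ → K) ∈ cone I →
      conormal I (Sum.elim (fun i => ζ ^ i.1) (fun _ => 0)) ≤
      Submodule.span K {ξ | ∃ F ∈ I, F.totalDegree < 2 * (m * a) ∧
        ξ = grad F (Sum.elim (fun i => ζ ^ i.1) (fun _ => 0) : Fin a ⊕ τ → K)}) :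
    ∃ c : Fin 2 → MvPolynomial (Fin a ⊕ τ) K, (∀ i, ∃ e, (c i).IsHomogeneous e) ∧
      I = Ideal.span (Set.range c) := by
  classical
  have ha0 : 0 < a := by omega
  obtain ⟨x₀, hx₀, hx₀0⟩ := hne
  obtain ⟨i₀, hi₀⟩ : ∃ i, x₀ i ≠ 0 := by
    by_contra h
    push Not at h
    exact hx₀0 (funext h)
  have hXi : (X i₀ : MvPolynomial (Fin a ⊕ τ) K) ∉ I := by
    intro h
    have := hx₀ _ h
    rw [eval_X] at this
    exact hi₀ this
  -- generation
  have hη : IsPrimitiveRoot (ζ ^ a) m := hζ.pow (Nat.mul_pos hm ha0) (by ring)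
  have hω : IsPrimitiveRoot (ζ ^ m) a := hζ.pow (Nat.mul_pos hm ha0) rfl
  have hspan := span_psi I hm hη hst hroot hX hXX
  -- the point
  set z : Fin a ⊕ τ → K := Sum.elim (fun i => ζ ^ i.1) (fun _ => 0) with hz
  have hγ : ∀ k, k ≠ Sum.inl ⟨a - 1, by omega⟩ → eval z (gen K a τ m k) = 0 := by
    intro k hk
    rcases k with k | j
    · simp only [gen, Sum.elim_inl, map_sum, map_pow, eval_X, hz]
      have hk' : k.1 + 1 < a := by
        have h1 := k.2
        have h2 : k.1 ≠ a - 1 := fun h => hk (by rw [Sum.inl.injEq]; exact Fin.ext h)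
        omega
      have h1 : ∀ i : Fin a, (ζ ^ i.1) ^ (m * (k.1 + 1)) = ((ζ ^ m) ^ (k.1 + 1)) ^ i.1 := by
        intro i
        rw [← pow_mul, ← pow_mul, ← pow_mul]
        congr 1
        ring
      simp only [h1]
      rw [Fin.sum_univ_eq_sum_range (fun i => ((ζ ^ m) ^ (k.1 + 1)) ^ i) a]
      have h2 := mul_geom_sum ((ζ ^ m) ^ (k.1 + 1)) a
      have h3 : ((ζ ^ m) ^ (k.1 + 1)) ^ a = 1 := by
        rw [← pow_mul, mul_comm, pow_mul, hω.pow_eq_one, one_pow]
      rw [h3, sub_self] at h2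
      refine (mul_eq_zero.1 h2).resolve_left (sub_ne_zero.2 ?_)
      exact hω.pow_ne_one_of_pos_of_lt (by omega) hk'
    · simp [gen, hz]
  have hγt : eval z (gen K a τ m (Sum.inl ⟨a - 1, by omega⟩)) ≠ 0 := by
    simp only [gen, Sum.elim_inl, map_sum, map_pow, eval_X, hz]
    have h1 : ∀ i : Fin a, (ζ ^ i.1) ^ (m * (a - 1 + 1)) = 1 := by
      intro i
      rw [← pow_mul, mul_comm, pow_mul, Nat.sub_add_cancel ha, hζ.pow_eq_one, one_pow]
    simp only [h1]
    rw [Finset.sum_const, Finset.card_univ, Fintype.card_fin, nsmul_eq_mul, mul_one]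
    exact Nat.cast_ne_zero.2 ha0.ne'
  have hz0 : z ≠ 0 := by
    intro h
    have := congrFun h (Sum.inl ⟨0, ha0⟩)
    simp [hz] at this
  have hdisc : disc K a τ m ∉ I := by
    unfold disc
    intro h
    rcases hI.mem_or_mem h with h | h
    · rw [hI.prod_mem_iff] at h
      obtain ⟨i, -, hi⟩ := h
      rcases Nat.lt_or_ge 1 m with hm1 | hm1
      · exact hX hm1 i (hI.mem_of_pow_mem _ hi)
      · have : m - 1 = 0 := by omega
        rw [this, pow_zero] at hi
        exact hI.ne_top ((Ideal.eq_top_iff_one _).2 hi)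
    · rw [pw_vdm, hI.prod_mem_iff] at h
      obtain ⟨⟨i, j⟩, hp, h⟩ := h
      simp only [Finset.mem_sigma, Finset.mem_univ, Finset.mem_Ioi, true_and] at hp
      exact hXX i j hp.ne h
  have hwt : ∀ k, 0 < wt a τ m k := by
    rintro (k | j)
    · simp only [wt, Sum.elim_inl]
      positivity
    · simp [wt]
  have S : Setup (fun i : Fin 0 => (i.elim0 : MvPolynomial (Fin a ⊕ τ) K)) (gen K a τ m)
      (wt a τ m) (disc K a τ m * X i₀) I :=
    { pos := hwt
      gen_hom := gen_isHomogeneous m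
      ge_mem := fun k => k.elim0
      ge_hom := fun k => k.elim0
      disc_ind := by
        intro x hx
        rw [map_mul] at hx
        have hx1 := (mul_ne_zero_iff.1 hx).1
        have h1 := span_grad_gen hm x hx1
        have h2 : LinearIndependent K (fun k => grad (gen K a τ m k) x) :=
          linearIndependent_of_top_le_span_of_card_eq_finrank h1.ge (by
            rw [Module.finrank_fintype_fun_eq_card])
        have h3 := h2.comp (Equiv.emptySum (Fin 0) (Fin a ⊕ τ))
          (Equiv.emptySum (Fin 0) (Fin a ⊕ τ)).injective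
        convert h3 using 1
        funext k
        rcases k with k | k
        · exact k.elim0
        · rfl
      disc_zero := by
        rw [map_mul, eval_X, Pi.zero_apply, mul_zero]
      prime := hI
      hom := hhom
      smooth := by
        intro x hx hx0
        rw [hsm x hx hx0, Fintype.card_fin]
      disc_not := by
        intro h
        rcases hI.mem_or_mem h with h | h
        · exact hdisc h
        · exact hXi h
      span := by
        rw [Set.range_eq_empty, Set.empty_union]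
        exact hspan }
  have hwtt : wt a τ m (Sum.inl ⟨a - 1, by omega⟩) = m * a := by
    simp only [wt, Sum.elim_inl]
    rw [Nat.sub_add_cancel ha]
  obtain ⟨F, hF, hIF⟩ := S.main (t := Sum.inl ⟨a - 1, by omega⟩) (z := z) hz0
    (fun k => k.elim0) hγ hγt (by rw [Fintype.card_fin]; exact hcard)
    (by rw [hwtt]; exact hcut1) (by rw [hwtt]; exact hcut2)
  refine ⟨fun i => F (Sum.inr i), fun i => hF _, ?_⟩
  rw [hIF]
  congr 1
  ext y
  constructor
  · rintro ⟨i | i, rfl⟩
    · exact i.elim0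
    · exact ⟨i, rfl⟩
  · rintro ⟨i, rfl⟩
    exact ⟨_, rfl⟩

/-- The theorem for ideals of `ℂ[x_0, …, x_N]`. -/
theorem expl_fin {N a m : ℕ} (ha : 1 ≤ a) (haN : a ≤ N + 1) (hm : 1 ≤ m) (hN : 6 ≤ N)
    (I : Ideal (MvPolynomial (Fin (N + 1)) ℂ)) (hI : I.IsPrime)
    (hhom : ∀ F ∈ I, ∀ d, homogeneousComponent d F ∈ I)
    (hne : ∃ x ∈ cone I, x ≠ 0)
    (hsm : ∀ x ∈ cone I, x ≠ 0 → Module.finrank ℂ (conormal I x) = 2)
    (hperm : ∀ s : Equiv.Perm (Fin (N + 1)), (∀ i, a ≤ i.1 → s i = i) →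
      ∀ F ∈ I, rename s F ∈ I)
    (hdiag : ∀ t : Fin (N + 1) → ℂ, (∀ i, i.1 < a → t i ^ m = 1) → (∀ i, a ≤ i.1 → t i = 1) →
      ∀ F ∈ I, aeval (fun i => C (t i) * X i : Fin (N + 1) → MvPolynomial (Fin (N + 1)) ℂ) F ∈ I)
    {ζ : ℂ} (hζ : IsPrimitiveRoot ζ (m * a)) (z : Fin (N + 1) → ℂ)
    (hz : z = fun i => if i.1 < a then ζ ^ i.1 else 0)
    (hcut1 : z ∉ cone I → ∃ F ∈ I, F.totalDegree < 2 * (m * a) ∧ eval z F ≠ 0)
    (hcut2 : z ∈ cone I → conormal I z ≤
      Submodule.span ℂ {ξ | ∃ F ∈ I, F.totalDegree < 2 * (m * a) ∧ ξ = grad F z}) :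
    Pool.Agent.H929R2.Hart.IsCI 2 I := by
  classical
  -- degenerate varieties
  by_cases hlin : ∃ u : Fin (N + 1) → ℂ, u ≠ 0 ∧ Pool.Agent.H929R2.Hart.lin u ∈ I
  · obtain ⟨u, hu0, hu⟩ := hlin
    apply Pool.Agent.H929R2.Hart.isCI_of_linsub 2 I hI hhom hsm hne
    have h1 : 0 < Module.finrank ℂ (Pool.Agent.H929R2.Hart.linsub I) := by
      rw [Module.finrank_pos_iff]
      exact ⟨⟨u, hu⟩, 0, fun h => hu0 (congrArg Subtype.val h)⟩
    omega
  push Not at hlin
  obtain ⟨b, hb⟩ : ∃ b, a + b = N + 1 := ⟨N + 1 - a, by omega⟩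
  set e : Fin a ⊕ Fin b ≃ Fin (N + 1) := finSumFinEquiv.trans (finCongr hb) with he
  have hel : ∀ i : Fin a, (e (Sum.inl i)).1 = i.1 := fun i => by simp [he]
  have her : ∀ j : Fin b, a ≤ (e (Sum.inr j)).1 := fun j => by simp [he]
  set E : MvPolynomial (Fin a ⊕ Fin b) ℂ →ₐ[ℂ] MvPolynomial (Fin (N + 1)) ℂ := rename e with hE
  set I' := I.comap E with hI'
  have hI'p : I'.IsPrime := Ideal.comap_isPrime _ _
  have hEX : ∀ k, E (X k) = X (e k) := fun k => by rw [hE, rename_X]
  have hEs : Function.Surjective E := by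
    intro F
    refine ⟨rename e.symm F, ?_⟩
    rw [hE, rename_rename]
    have : (e ∘ e.symm : Fin (N + 1) → Fin (N + 1)) = id := by ext; simp
    rw [this, rename_id_apply]
  have hxe : ∀ y : Fin a ⊕ Fin b → ℂ, y = (y ∘ e.symm) ∘ e := fun y => by ext; simp
  -- stability
  have hst : ∀ s : Equiv.Perm (Fin a), ∀ f ∈ I', rho s f ∈ I' := by
    intro s f hf
    rw [hI', Ideal.mem_comap] at hf ⊢
    set s' : Equiv.Perm (Fin (N + 1)) :=
      (e.symm.trans (Equiv.Perm.sumCongr s (Equiv.refl (Fin b)))).trans e with hs'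
    have h1 := hperm s' (fun i hi => by
      obtain ⟨k, rfl⟩ := e.surjective i
      rcases k with k | k
      · rw [hel] at hi
        exact absurd k.2 (by omega)
      · simp [hs']) _ hf
    have h2 : rename s' (E f) = E (rho s f) := by
      have : (rename s' : MvPolynomial (Fin (N + 1)) ℂ →ₐ[ℂ] _).comp E = E.comp (rho s) := by
        apply MvPolynomial.algHom_ext
        intro k
        rcases k with k | k
        · simp [hE, hs', rho]
        · simp [hE, hs', rho]
      exact congrArg (fun φ => φ f) this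
    rw [← h2]
    exact h1
  have hroot : ∀ t : Fin a → ℂ, (∀ i, t i ^ m = 1) → ∀ f ∈ I', scal t f ∈ I' := by
    intro t ht f hf
    rw [hI', Ideal.mem_comap] at hf ⊢
    set t' : Fin (N + 1) → ℂ := fun i => Sum.elim t (fun _ => 1) (e.symm i) with ht'
    have h1 := hdiag t' (fun i hi => by
      obtain ⟨k, rfl⟩ := e.surjective i
      rcases k with k | k
      · simp [ht', ht]
      · exact absurd (her k) (by omega)) (fun i hi => by
      obtain ⟨k, rfl⟩ := e.surjective i
      rcases k with k | k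
      · rw [hel] at hi
        exact absurd k.2 (by omega)
      · simp [ht']) _ hf
    have h2 : aeval (fun i => C (t' i) * X i : Fin (N + 1) → MvPolynomial (Fin (N + 1)) ℂ) (E f) =
        E (scal t f) := by
      have : (aeval (fun i => C (t' i) * X i :
          Fin (N + 1) → MvPolynomial (Fin (N + 1)) ℂ)).comp E = E.comp (scal t) := by
        apply MvPolynomial.algHom_ext
        intro k
        rw [AlgHom.comp_apply, AlgHom.comp_apply, hEX, aeval_X]
        rcases k with k | k
        · rw [scal_inl, map_mul, hEX, hE, rename_C]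
          simp [ht']
        · rw [scal_inr, hEX]
          simp [ht']
      exact congrArg (fun φ => φ f) this
    rw [← h2]
    exact h1
  have hX : 1 < m → ∀ i, (X (Sum.inl i) : MvPolynomial (Fin a ⊕ Fin b) ℂ) ∉ I' := by
    intro hm1 i hi
    rw [hI', Ideal.mem_comap, hEX] at hi
    refine hlin (Pi.single (e (Sum.inl i)) 1) ?_ ?_
    · intro h
      have := congrFun h (e (Sum.inl i))
      simp at this
    · rw [Pool.Agent.H929R2.Hart.lin_single]
      exact hi
  have hdiff : ∀ i j : Fin a, i ≠ j →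
      (X (Sum.inl j) - X (Sum.inl i) : MvPolynomial (Fin a ⊕ Fin b) ℂ) ∉ I' := by
    intro i j hij hi
    rw [hI', Ideal.mem_comap, map_sub, hEX, hEX] at hi
    refine hlin (Pi.single (e (Sum.inl j)) 1 + (-1 : ℂ) • Pi.single (e (Sum.inl i)) 1) ?_ ?_
    · intro h
      have := congrFun h (e (Sum.inl j))
      have hne : e (Sum.inl j) ≠ e (Sum.inl i) := fun h => hij (by
        have := e.injective h
        exact (Sum.inl.inj this).symm)
      rw [Pi.add_apply, Pi.smul_apply, Pi.single_eq_same, Pi.single_eq_of_ne hne, smul_zero,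
        add_zero] at this
      exact one_ne_zero this
    · rw [Pool.Agent.H929R2.Hart.lin_add, Pool.Agent.H929R2.Hart.lin_smul,
        Pool.Agent.H929R2.Hart.lin_single, Pool.Agent.H929R2.Hart.lin_single]
      convert hi using 1
      simp [sub_eq_add_neg]
  have hη : IsPrimitiveRoot (ζ ^ a) m := hζ.pow (Nat.mul_pos hm ha) (by ring)
  set η := ζ ^ a with hηdef
  have hXX : ∀ i j : Fin a, i ≠ j →
      (X (Sum.inl j) ^ m - X (Sum.inl i) ^ m : MvPolynomial (Fin a ⊕ Fin b) ℂ) ∉ I' := by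
    intro i j hij h
    have hmz : NeZero m := ⟨by omega⟩
    have hCη : IsPrimitiveRoot (C η : MvPolynomial (Fin a ⊕ Fin b) ℂ) m :=
      hη.map_of_injective (C_injective _ _)
    rw [hCη.pow_sub_pow_eq_prod_sub_mul _ _ (by omega), hI'p.prod_mem_iff] at h
    obtain ⟨ξ, hξ, h⟩ := h
    rw [Polynomial.mem_nthRootsFinset (by omega)] at hξ
    obtain ⟨c, hc, hcξ⟩ := hCη.eq_pow_of_pow_eq_one hξ
    have hηm : η ^ m = 1 := hη.pow_eq_one
    -- scale the coordinate `i`
    have h1 := hroot (fun l => if l = i then η ^ (m * c - c) else 1) (fun l => by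
      by_cases hl : l = i
      · rw [if_pos hl, ← pow_mul, mul_comm, pow_mul, hηm, one_pow]
      · rw [if_neg hl, one_pow]) _ h
    rw [map_sub, map_mul, scal_inl, scal_inl, if_neg (Ne.symm hij), if_pos rfl, C_1, one_mul,
      ← hcξ, ← C_pow, scal_C, ← mul_assoc, ← C_mul, ← pow_add] at h1
    have h2 : c + (m * c - c) = m * c := by
      have : c ≤ m * c := Nat.le_mul_of_pos_left c (by omega)
      omega
    rw [h2, pow_mul, hηm, one_pow, C_1, one_mul] at h1
    exact hdiff i j hij h1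
  have hze : (Sum.elim (fun i => ζ ^ i.1) (fun _ => 0) : Fin a ⊕ Fin b → ℂ) = z ∘ e := by
    funext k
    rw [Function.comp_apply, hz]
    rcases k with k | k
    · simp only [Sum.elim_inl]
      rw [if_pos (by rw [hel]; exact k.2), hel]
    · simp only [Sum.elim_inr]
      rw [if_neg (by have := her k; omega)]
  obtain ⟨c, hc1, hc3⟩ := expl_sum I' (fun F hF d => by
      rw [hI', Ideal.mem_comap] at hF ⊢
      rw [hE, rename_homogeneousComponent]
      exact hhom _ hF d) (by
        obtain ⟨x, hx, hx0⟩ := hne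
        refine ⟨x ∘ e, ?_, ?_⟩
        · rw [hI', hE, mem_cone_comap]
          exact hx
        · intro h
          apply hx0
          funext i
          have := congrFun h (e.symm i)
          simpa using this) (m := m) (by omega) ha (by
        rw [Fintype.card_sum, Fintype.card_fin, Fintype.card_fin, hb]
        omega) (fun y hy hy0 => by
      rw [hxe y] at hy ⊢
      rw [hI', hE, conormal_comap]
      rw [hI', hE, mem_cone_comap] at hy
      have h1 := hsm _ hy (fun h => hy0 (by rw [hxe y, h]; rfl))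
      rw [← h1]
      exact LinearEquiv.finrank_map_eq (LinearEquiv.funCongrLeft ℂ ℂ e) _)
    hst hroot hX hXX hζ (fun hy => by
      rw [hze, hI', hE, mem_cone_comap] at hy
      obtain ⟨F, hF, hFd, hFz⟩ := hcut1 hy
      refine ⟨rename e.symm F, ?_, lt_of_le_of_lt (totalDegree_rename_le e.symm F) hFd, ?_⟩
      · rw [hI', Ideal.mem_comap, hE, rename_rename]
        have : (e ∘ e.symm : Fin (N + 1) → Fin (N + 1)) = id := by ext; simp
        rw [this, rename_id_apply]
        exact hF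
      · rw [hze, eval_rename]
        have : (z ∘ e) ∘ e.symm = z := by ext; simp
        rw [this]
        exact hFz) (fun hy => by
      rw [hze, hI', hE, mem_cone_comap] at hy
      rw [hze, hI', hE, conormal_comap, span_comap]
      exact Submodule.map_mono (hcut2 hy))
  refine Pool.Agent.H929R2.Hart.isCI_of_span 2 I hsm (fun i => E (c i)) (fun i => ?_) ?_
  · obtain ⟨d, hdc⟩ := hc1 i
    exact ⟨d, hdc.rename_isHomogeneous⟩
  · have h1 : I = I'.map E := (Ideal.map_comap_of_surjective _ hEs I).symm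
    rw [h1, hc3, Ideal.map_span, ← Set.range_comp]
    rfl

end Pool.Agent.X269.CT
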