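import Pool.Agent.X269.CT.Refl
import Pool.Agent.H929R2.Hart.W17

/-!
Smooth varieties stable under a finite group generated by reflections: assembling.
-/

set_option autoImplicit false

namespace Pool.Agent.X269.CT

open MvPolynomial Pool.Agent.W467.Sym

section gen

variable {K : Type*} [Field K] {V : Type*} [Fintype V] [DecidableEq V]

omit [DecidableEq V] in
theorem mem_of_cone [IsAlgClosed K] (I : Ideal (MvPolynomial V K)) [hI : I.IsPrime]
    {F : MvPolynomial V K} (h : ∀ x ∈ cone I, eval x F = 0) : F ∈ I := by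
  rw [← hI.isRadical.radical, ← MvPolynomial.vanishingIdeal_zeroLocus_eq_radical (K := K) I,
    MvPolynomial.mem_vanishingIdeal_iff]
  intro x hx
  rw [aeval_eq_eval]
  refine h x fun G hG => ?_
  have := (MvPolynomial.mem_zeroLocus_iff.1 hx) G hG
  rwa [aeval_eq_eval] at this

omit [DecidableEq V] in
theorem eval_act (g : Matrix V V K) (F : MvPolynomial V K) (x : V → K) :
    eval x (act g F) = eval (g.mulVec x) F := by
  rw [act, eval_aeval]
  congr 2
  funext i
  simp [Matrix.mulVec, dotProduct]

/-- the Jacobian determinant vanishes on the hyperplanes of the reflections -/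
theorem jac_mem_of_lform [IsAlgClosed K] (I : Ideal (MvPolynomial V K)) [hI : I.IsPrime]
    (f : V → MvPolynomial V K) (v α : V → K) (hv : v ≠ 0) (hα0 : α ≠ 0)
    (hinv : ∀ i, act (1 + Matrix.vecMulVec v α) (f i) = f i) (hα : lform α ∈ I) :
    Matrix.det (Matrix.of fun i j => pderiv j (f i)) ∈ I := by
  apply mem_of_cone
  intro x hx
  rw [RingHom.map_det]
  refine Matrix.exists_mulVec_eq_zero_iff.1 ⟨v, hv, ?_⟩
  have h0 : ∑ j, α j * x j = 0 := by
    have := hx _ hα
    simpa [lform] using this
  obtain ⟨j₀, hj₀⟩ : ∃ j, α j ≠ 0 := by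
    by_contra h
    push Not at h
    exact hα0 (funext h)
  ext i
  simp only [Matrix.mulVec, dotProduct, RingHom.mapMatrix_apply, Matrix.map_apply,
    Matrix.of_apply, Pi.zero_apply]
  have hgx : (fun k => eval x (∑ j, C ((1 + Matrix.vecMulVec v α) k j) * X j)) = x := by
    funext k
    simp only [map_sum, map_mul, eval_C, eval_X, Matrix.add_apply, Matrix.vecMulVec_apply, add_mul,
      Finset.sum_add_distrib]
    have h1 : ∑ j, v k * α j * x j = 0 := by
      simp only [mul_assoc]
      rw [← Finset.mul_sum, h0, mul_zero]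
    rw [h1, add_zero, Finset.sum_eq_single k]
    · simp
    · intro j _ hj
      rw [Matrix.one_apply_ne (Ne.symm hj), zero_mul]
    · intro h; exact absurd (Finset.mem_univ _) h
  have h1 := congrFun (congrArg (fun F => grad F x) (hinv i)) j₀
  rw [act, grad_aeval, hgx, Finset.sum_apply] at h1
  have h2 : ∀ k, grad (∑ j, C ((1 + Matrix.vecMulVec v α) k j) * X j : MvPolynomial V K) x j₀ =
      (1 : Matrix V V K) k j₀ + v k * α j₀ := by
    intro k
    rw [grad, map_sum, map_sum, Finset.sum_eq_single j₀]
    · rw [pderiv_C_mul, pderiv_X_self]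
      simp [Matrix.vecMulVec_apply]
    · intro j _ hj
      rw [pderiv_C_mul, pderiv_X_of_ne hj]
      simp
    · intro h; exact absurd (Finset.mem_univ _) h
  simp only [Pi.smul_apply, h2, smul_eq_mul, mul_add, Finset.sum_add_distrib] at h1
  have h3 : ∑ k, eval x (pderiv k (f i)) * (1 : Matrix V V K) k j₀ = grad (f i) x j₀ := by
    rw [Finset.sum_eq_single j₀]
    · simp [grad]
    · intro k _ hk
      rw [Matrix.one_apply_ne hk, mul_zero]
    · intro h; exact absurd (Finset.mem_univ _) h
  rw [h3] at h1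
  have h4 : (∑ k, eval x (pderiv k (f i)) * v k) * α j₀ = 0 := by
    have h5 : ∑ k, eval x (pderiv k (f i)) * (v k * α j₀) = 0 := by
      have := h1
      simpa using this
    rw [← h5, Finset.sum_mul]
    refine Finset.sum_congr rfl fun k _ => ?_
    ring
  exact (mul_eq_zero.1 h4).resolve_right hj₀

omit [Fintype V] [DecidableEq V] in
/-- generators of `I` when some of the basic invariants lie in `I` -/
theorem span_split (f : V → MvPolynomial V K) (p : V → Prop) [DecidablePred p]
    (I : Ideal (MvPolynomial V K))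
    (hspan : I = Ideal.span {F | F ∈ I ∧ ∃ P : MvPolynomial V K, aeval f P = F})
    (hp : ∀ i, p i → f i ∈ I) :
    I = Ideal.span (Set.range (fun i : {i // p i} => f i) ∪
      {F | F ∈ I ∧ ∃ P : MvPolynomial {i // ¬ p i} K,
        aeval (fun i : {i // ¬ p i} => f i) P = F}) := by
  classical
  apply le_antisymm
  · conv_lhs => rw [hspan]
    rw [Ideal.span_le]
    rintro F ⟨hF, P, rfl⟩
    set ρ : MvPolynomial V K →ₐ[K] MvPolynomial {i // ¬ p i} K :=
      aeval (fun i => if h : ¬ p i then X ⟨i, h⟩ else 0) with hρ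
    set A : Ideal (MvPolynomial V K) := Ideal.span (Set.range (fun i : {i // p i} => f i)) with hA
    have hAI : A ≤ I := by
      rw [hA, Ideal.span_le]
      rintro _ ⟨i, rfl⟩
      exact hp i.1 i.2
    have key : aeval f P - aeval (fun i : {i // ¬ p i} => f i) (ρ P) ∈ A := by
      rw [← Ideal.Quotient.eq]
      have : (Ideal.Quotient.mkₐ K A).comp (aeval f) = (Ideal.Quotient.mkₐ K A).comp
          ((aeval (fun i : {i // ¬ p i} => f i)).comp ρ) := by
        apply MvPolynomial.algHom_ext
        intro i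
        rw [AlgHom.comp_apply, AlgHom.comp_apply, AlgHom.comp_apply, aeval_X, hρ, aeval_X]
        by_cases h : p i
        · rw [dif_neg (not_not.2 h), map_zero, map_zero]
          exact Ideal.Quotient.eq_zero_iff_mem.2 (Ideal.subset_span ⟨⟨i, h⟩, rfl⟩)
        · rw [dif_pos h, aeval_X]
      exact congrArg (fun φ => φ P) this
    have h2 : aeval (fun i : {i // ¬ p i} => f i) (ρ P) ∈ I := by
      have := I.sub_mem hF (hAI key)
      rwa [sub_sub_cancel] at this
    have h3 : aeval f P = (aeval f P - aeval (fun i : {i // ¬ p i} => f i) (ρ P)) +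
        aeval (fun i : {i // ¬ p i} => f i) (ρ P) := by ring
    show aeval f P ∈ _
    rw [h3]
    refine Ideal.add_mem _ (Ideal.span_mono (Set.subset_union_left) key) ?_
    exact Ideal.subset_span (Or.inr ⟨h2, _, rfl⟩)
  · rw [Ideal.span_le]
    rintro F (⟨i, rfl⟩ | hF)
    · exact hp i.1 i.2
    · exact hF.1

end gen

/-- The theorem for finite groups generated by reflections. -/
theorem main_refl {K : Type} [Field K] [IsAlgClosed K] [CharZero K] {V : Type} [Fintype V]
    [DecidableEq V] {r : ℕ}
    (hn : r + 5 ≤ Fintype.card V)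
    (I : Ideal (MvPolynomial V K)) (hI : I.IsPrime)
    (hhom : ∀ F ∈ I, ∀ d, homogeneousComponent d F ∈ I)
    (hne : ∃ x ∈ cone I, x ≠ 0)
    (hsm : ∀ x ∈ cone I, x ≠ 0 → Module.finrank K (conormal I x) = r)
    (W : Subgroup (Matrix.GeneralLinearGroup V K)) [Finite W]
    (hW : W = Subgroup.closure {g | g ∈ W ∧ ∃ v α : V → K,
      (g : Matrix V V K) = 1 + Matrix.vecMulVec v α})
    (hst : ∀ g ∈ W, ∀ x ∈ cone I, (g : Matrix V V K).mulVec x ∈ cone I)
    (f : V → MvPolynomial V K) (d : V → ℕ) (hd : ∀ i, 0 < d i)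
    (hf : ∀ i, (f i).IsHomogeneous (d i))
    (hinv : ∀ g ∈ W, ∀ i, act (g : Matrix V V K) (f i) = f i)
    (hgen : ∀ F, (∀ g ∈ W, act (g : Matrix V V K) F = F) → F ∈ Algebra.adjoin K (Set.range f))
    (hJ : Matrix.det (Matrix.of fun i j => pderiv j (f i)) ∉ I)
    (p : V → Prop) [DecidablePred p] (hpr : Fintype.card {i // p i} + 2 = r)
    (hp : ∀ i, p i → f i ∈ I) (t : V) (ht : ¬ p t) (z : V → K)
    (hz : ∀ i, i ≠ t → eval z (f i) = 0) (hzt : eval z (f t) ≠ 0)
    (hcut1 : z ∉ cone I → ∃ F ∈ I, F.totalDegree < 2 * d t ∧ eval z F ≠ 0)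
    (hcut2 : z ∈ cone I → conormal I z ≤
      Submodule.span K {ξ | ∃ F ∈ I, F.totalDegree < 2 * d t ∧ ξ = grad F z}) :
    Pool.Agent.H929R2.Hart.IsCI r I := by
  classical
  obtain ⟨x₀, hx₀, hx₀0⟩ := hne
  obtain ⟨i₀, hi₀⟩ : ∃ i, x₀ i ≠ 0 := by
    by_contra h
    push Not at h
    exact hx₀0 (funext h)
  have hXi : (X i₀ : MvPolynomial V K) ∉ I := by
    intro h
    have := hx₀ _ h
    rw [eval_X] at this
    exact hi₀ this
  have hst' : ∀ g ∈ W, ∀ F ∈ I, act (g : Matrix V V K) F ∈ I := by
    intro g hg F hF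
    apply mem_of_cone
    intro x hx
    rw [eval_act]
    exact hst g hg x hx F hF
  have hspan := span_invariant W hW I hst' (by
    intro g hg v α hgv hv hα h
    apply hJ
    refine jac_mem_of_lform I f v α hv hα (fun i => ?_) h
    rw [← hgv]
    exact hinv g hg i)
  have hspan' : I = Ideal.span {F | F ∈ I ∧ ∃ P : MvPolynomial V K, aeval f P = F} := by
    apply le_antisymm
    · conv_lhs => rw [hspan]
      apply Ideal.span_mono
      rintro F ⟨hF, hFW⟩
      refine ⟨hF, ?_⟩
      have h1 := hgen F hFW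
      rw [Algebra.adjoin_range_eq_range_aeval] at h1
      exact h1
    · rw [Ideal.span_le]
      rintro F ⟨hF, -⟩
      exact hF
  have S : Setup (fun i : {i // p i} => f i) (fun i : {i // ¬ p i} => f i) (fun i => d i.1)
      (Matrix.det (Matrix.of fun i j => pderiv j (f i)) * X i₀) I :=
    { pos := fun k => hd k.1
      gen_hom := fun k => hf k.1
      ge_mem := fun k => hp k.1 k.2
      ge_hom := fun k => ⟨_, hf k.1⟩
      disc_ind := by
        intro x hx
        rw [map_mul] at hx
        have hx1 := (mul_ne_zero_iff.1 hx).1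
        rw [RingHom.map_det] at hx1
        have h1 : LinearIndependent K (fun i => grad (f i) x) := by
          have := Matrix.linearIndependent_rows_of_det_ne_zero hx1
          exact this
        have h2 := h1.comp (Equiv.sumCompl p) (Equiv.sumCompl p).injective
        convert h2 using 1
        funext k
        rcases k with k | k <;> rfl
      disc_zero := by
        rw [map_mul, eval_X, Pi.zero_apply, mul_zero]
      prime := hI
      hom := hhom
      smooth := by
        intro x hx hx0
        rw [hsm x hx hx0, ← hpr]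
      disc_not := by
        intro h
        rcases hI.mem_or_mem h with h | h
        · exact hJ h
        · exact hXi h
      span := span_split f p I hspan' hp }
  obtain ⟨F, hF, hIF⟩ := S.main (t := ⟨t, ht⟩) (z := z) (by
      rintro rfl
      apply hzt
      have h1 := hf t
      rw [eval_zero, constantCoeff_eq]
      refine h1.coeff_eq_zero (d := 0) ?_
      rw [map_zero]
      exact (hd t).ne)
    (fun k => hz k.1 (fun h => ht (h ▸ k.2)))
    (fun k hk => hz k.1 (fun h => hk (Subtype.ext h))) hzt (by omega) hcut1 hcut2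
  have hc : Fintype.card ({i // p i} ⊕ Fin 2) = r := by
    rw [Fintype.card_sum, Fintype.card_fin]
    exact hpr
  set e : Fin r ≃ {i // p i} ⊕ Fin 2 := (Fintype.equivFinOfCardEq hc).symm with he
  refine Pool.Agent.H929R2.Hart.isCI_of_span r I hsm (F ∘ e) (fun i => hF (e i)) ?_
  rw [e.surjective.range_comp F]
  exact hIF

end Pool.Agent.X269.CT
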