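import Pool.Agent.X269.CT.Eqv
import Pool.Agent.W467.Sym.Final2

/-!
Smooth varieties of codimension two which come from a weighted projective space.
-/

set_option autoImplicit false

namespace Pool.Agent.X269.CT

open MvPolynomial Pool.Agent.W467.Sym

variable {K : Type*} [Field K] {V U E : Type*} [Fintype V] [Fintype U] [Fintype E]
  [DecidableEq U]

/-- `I` is the homogeneous ideal of a smooth variety of codimension `card E + 2` which comes from
the weighted projective space with the coordinates `ge`, `gen`, and on which the coordinates `ge`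
vanish. -/
structure Setup (ge : E → MvPolynomial V K) (gen : U → MvPolynomial V K) (wgt : U → ℕ)
    (disc : MvPolynomial V K) (I : Ideal (MvPolynomial V K)) : Prop where
  pos : ∀ k, 0 < wgt k
  gen_hom : ∀ k, (gen k).IsHomogeneous (wgt k)
  ge_mem : ∀ k, ge k ∈ I
  ge_hom : ∀ k, ∃ d, (ge k).IsHomogeneous d
  disc_ind : ∀ x, eval x disc ≠ 0 →
    LinearIndependent K (Sum.elim (fun k => grad (ge k) x) (fun k => grad (gen k) x))
  disc_zero : eval 0 disc = 0
  prime : I.IsPrime
  hom : ∀ F ∈ I, ∀ d, homogeneousComponent d F ∈ I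
  smooth : ∀ x ∈ cone I, x ≠ 0 → Module.finrank K (conormal I x) = Fintype.card E + 2
  disc_not : disc ∉ I
  span : I = Ideal.span (Set.range ge ∪ {F | F ∈ I ∧ ∃ P : MvPolynomial U K, aeval gen P = F})

variable {ge : E → MvPolynomial V K} {gen : U → MvPolynomial V K} {wgt : U → ℕ}
  {disc : MvPolynomial V K} {I : Ideal (MvPolynomial V K)}

omit [Fintype V] [DecidableEq U] in
theorem Setup.hom_of_wh (S : Setup ge gen wgt disc I) {P : MvPolynomial U K} {n : ℕ}
    (hP : IsWeightedHomogeneous wgt P n) : (aeval gen P).IsHomogeneous n := by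
  classical
  rw [P.as_sum, map_sum]
  refine IsHomogeneous.sum _ _ _ fun u hu => ?_
  have h1 : Finsupp.weight wgt u = n := hP (mem_support_iff.1 hu)
  rw [aeval_monomial, algebraMap_eq]
  have h2 : (u.prod fun i k => gen i ^ k).IsHomogeneous n := by
    rw [← h1, Finsupp.weight_apply, Finsupp.sum]
    unfold Finsupp.prod
    refine IsHomogeneous.prod _ _ _ fun i _ => ?_
    have := (S.gen_hom i).pow (u i)
    rwa [smul_eq_mul, mul_comm]
  have h3 := (isHomogeneous_C V (coeff u P)).mul h2
  rwa [zero_add] at h3

omit [Fintype V] [DecidableEq U] in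
theorem Setup.comp (S : Setup ge gen wgt disc I) (n : ℕ) (P : MvPolynomial U K) :
    homogeneousComponent n (aeval gen P) = aeval gen (weightedHomogeneousComponent wgt n P) := by
  classical
  induction P using MvPolynomial.induction_on' with
  | monomial u c =>
    have h1 : IsWeightedHomogeneous wgt (monomial u c) (Finsupp.weight wgt u) :=
      isWeightedHomogeneous_monomial _ _ _ rfl
    rw [weightedHomogeneousComponent_of_mem h1, homogeneousComponent_of_mem (S.hom_of_wh h1)]
    split_ifs
    · rfl
    · rw [map_zero]
  | add p q hp hq => rw [map_add, map_add, hp, hq, map_add, map_add]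

omit [Fintype V] [DecidableEq U] in
theorem Setup.comp_mem (S : Setup ge gen wgt disc I) {P : MvPolynomial U K}
    (hP : aeval gen P ∈ I) (n : ℕ) : aeval gen (weightedHomogeneousComponent wgt n P) ∈ I := by
  rw [← S.comp]
  exact S.hom _ hP n

/-- the Jacobian determinants of three elements -/
theorem Setup.jac_mem [IsAlgClosed K] (S : Setup ge gen wgt disc I) (P : Fin 3 → MvPolynomial U K)
    (hP : ∀ s, aeval gen (P s) ∈ I) (c : Fin 3 → U) :
    aeval gen (Matrix.det (Matrix.of fun s t => pderiv (c t) (P s))) ∈ I := by
  classical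
  have hI := S.prime
  have h1 : aeval gen (Matrix.det (Matrix.of fun s t => pderiv (c t) (P s))) * disc ∈ I := by
    rw [← hI.isRadical.radical, ← MvPolynomial.vanishingIdeal_zeroLocus_eq_radical (K := K) I,
      MvPolynomial.mem_vanishingIdeal_iff]
    intro x hx
    have hx' : x ∈ cone I := by
      intro F hF
      have := (MvPolynomial.mem_zeroLocus_iff.1 hx) F hF
      rwa [aeval_eq_eval] at this
    rw [aeval_eq_eval, map_mul]
    by_cases hxd : eval x disc = 0
    · rw [hxd, mul_zero]
    have hx0 : x ≠ 0 := by
      rintro rfl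
      exact hxd S.disc_zero
    have hgen := S.disc_ind x hxd
    have hnot : ¬ LinearIndependent K (Sum.elim (fun k => grad (ge k) x)
        (fun s => grad (aeval gen (P s)) x)) := by
      intro h
      have h2 := finrank_span_eq_card h
      have h3 : Submodule.span K (Set.range (Sum.elim (fun k => grad (ge k) x)
          (fun s => grad (aeval gen (P s)) x))) ≤ conormal I x := by
        rw [Submodule.span_le]
        rintro _ ⟨s | s, rfl⟩
        · exact Submodule.subset_span ⟨_, S.ge_mem s, rfl⟩
        · exact Submodule.subset_span ⟨_, hP s, rfl⟩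
      have h4 := Submodule.finrank_mono h3
      rw [h2, S.smooth x hx' hx0, Fintype.card_sum, Fintype.card_fin] at h4
      omega
    rw [Fintype.not_linearIndependent_iff] at hnot
    obtain ⟨b, hb, s₀, hs₀⟩ := hnot
    have h5 : ∑ k, (Sum.elim (fun k => b (Sum.inl k)) (fun k => ∑ s, b (Sum.inr s) *
        eval (fun k => eval x (gen k)) (pderiv k (P s))) : E ⊕ U → K) k •
        (Sum.elim (fun k => grad (ge k) x) (fun k => grad (gen k) x) : E ⊕ U → V → K) k = 0 := by
      rw [← hb, Fintype.sum_sum_type, Fintype.sum_sum_type]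
      simp only [Sum.elim_inl, Sum.elim_inr, grad_aeval, Finset.smul_sum, Finset.sum_smul]
      congr 1
      rw [Finset.sum_comm]
      refine Finset.sum_congr rfl fun s _ => Finset.sum_congr rfl fun k _ => ?_
      rw [mul_smul]
    have h6 := Fintype.linearIndependent_iff.1 hgen _ h5
    have hdep : ∀ k, ∑ s, b (Sum.inr s) * eval (fun k => eval x (gen k)) (pderiv k (P s)) = 0 :=
      fun k => h6 (Sum.inr k)
    have hbE : ∀ k, b (Sum.inl k) = 0 := fun k => h6 (Sum.inl k)
    obtain ⟨s₀, hs₀⟩ : ∃ s, b (Sum.inr s) ≠ 0 := by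
      rcases s₀ with s₀ | s₀
      · exact absurd (hbE s₀) hs₀
      · exact ⟨s₀, hs₀⟩
    have hdet : eval x (aeval gen (Matrix.det (Matrix.of fun s t => pderiv (c t) (P s)))) = 0 := by
      rw [eval_aeval]
      rw [RingHom.map_det]
      apply Matrix.exists_vecMul_eq_zero_iff.1
      refine ⟨fun s => b (Sum.inr s), fun h => hs₀ (congrFun h s₀), ?_⟩
      ext t
      simp only [Matrix.vecMul, dotProduct, RingHom.mapMatrix_apply, Matrix.map_apply,
        Matrix.of_apply, Pi.zero_apply]
      exact hdep (c t)
    rw [hdet, zero_mul]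
  exact (hI.mem_or_mem h1).resolve_right S.disc_not

/-- the Jacobian determinants of three elements, expanded -/
theorem Setup.jac_mem' [IsAlgClosed K] (S : Setup ge gen wgt disc I) {P Q T : MvPolynomial U K}
    (hP : aeval gen P ∈ I) (hQ : aeval gen Q ∈ I) (hT : aeval gen T ∈ I) (i j k : U) :
    aeval gen (pderiv i P * (pderiv j Q * pderiv k T - pderiv k Q * pderiv j T) -
      pderiv j P * (pderiv i Q * pderiv k T - pderiv k Q * pderiv i T) +
      pderiv k P * (pderiv i Q * pderiv j T - pderiv j Q * pderiv i T)) ∈ I := by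
  have h := S.jac_mem ![P, Q, T] (by
    intro s
    fin_cases s
    · exact hP
    · exact hQ
    · exact hT) ![i, j, k]
  rw [Matrix.det_fin_three] at h
  simp only [Matrix.of_apply, Matrix.cons_val_zero, Matrix.cons_val_one, Matrix.cons_val] at h
  have e : pderiv i P * (pderiv j Q * pderiv k T - pderiv k Q * pderiv j T) -
      pderiv j P * (pderiv i Q * pderiv k T - pderiv k Q * pderiv i T) +
      pderiv k P * (pderiv i Q * pderiv j T - pderiv j Q * pderiv i T) =
      pderiv i P * pderiv j Q * pderiv k T - pderiv i P * pderiv k Q * pderiv j T -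
      pderiv j P * pderiv i Q * pderiv k T + pderiv j P * pderiv k Q * pderiv i T +
      pderiv k P * pderiv i Q * pderiv j T - pderiv k P * pderiv j Q * pderiv i T := by ring
  rw [e]
  exact h

/-- An element with a nonzero linear part: the variety is a complete intersection. -/
theorem Setup.of_lin [IsAlgClosed K] [CharZero K] (S : Setup ge gen wgt disc I)
    {P : MvPolynomial U K} {e : ℕ} (hP : IsWeightedHomogeneous wgt P e) (hPI : aeval gen P ∈ I)
    {u : U} (hu : lin u P ≠ 0) :
    ∃ F : E ⊕ Fin 2 → MvPolynomial V K, (∀ i, ∃ d, (F i).IsHomogeneous d) ∧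
      I = Ideal.span (Set.range F) := by
  classical
  -- normalise
  wlog h1 : lin u P = 1 generalizing P
  · refine this (P := C (lin u P)⁻¹ * P) (hP.C_mul _) ?_ ?_ ?_
    · rw [map_mul]
      exact I.mul_mem_left _ hPI
    · rw [lin_mul, eval_C]
      have : lin u (C (lin u P)⁻¹ : MvPolynomial U K) = 0 := by simp [lin]
      rw [this, mul_zero, add_zero]
      exact mul_ne_zero (inv_ne_zero hu) hu
    · rw [lin_mul, eval_C]
      have : lin u (C (lin u P)⁻¹ : MvPolynomial U K) = 0 := by simp [lin]
      rw [this, mul_zero, add_zero, inv_mul_cancel₀ hu]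
  have hI := S.prime
  have hwu : wgt u = e := weight_of_lin hP hu
  have hdP : pderiv u P = 1 := by
    rw [pderiv_high S.pos hP hwu.ge, h1, C_1]
  set ren : MvPolynomial {k // k ≠ u} K →ₐ[K] MvPolynomial U K := rename Subtype.val with hren
  set J : Ideal (MvPolynomial {k // k ≠ u} K) := I.comap ((aeval gen : MvPolynomial U K →ₐ[K] _).comp ren)
    with hJ
  have hmemJ : ∀ R, R ∈ J ↔ aeval gen (ren R) ∈ I := fun R => Iff.rfl
  haveI : J.IsPrime := Ideal.comap_isPrime _ _
  obtain ⟨G, hG⟩ := principal_mv J (by
    intro R hR T hT i j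
    rw [hmemJ] at hR hT ⊢
    have h := S.jac_mem' hPI hR hT u i.1 j.1
    rw [hdP, hren, pderiv_rename_self, pderiv_rename_self,
      pderiv_rename Subtype.val_injective, pderiv_rename Subtype.val_injective,
      pderiv_rename Subtype.val_injective, pderiv_rename Subtype.val_injective] at h
    rw [hren]
    convert h using 2
    simp only [map_sub, map_mul]
    ring)
  have hGmem : ∀ R, aeval gen (ren R) ∈ I ↔ G ∣ R := by
    intro R
    rw [← hmemJ, hG, Ideal.mem_span_singleton]
  obtain ⟨d, hd⟩ := gen_homog (wgt ∘ Subtype.val) G (by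
    intro d
    rw [← hGmem, hren, comp_rename]
    apply S.comp_mem
    exact (hGmem G).2 dvd_rfl)
  have hrG : IsWeightedHomogeneous wgt (ren G) d := by
    have h2 : ren G = weightedHomogeneousComponent wgt d (ren G) := by
      rw [hren, ← comp_rename, hd.weightedHomogeneousComponent_same]
    rw [h2]
    exact weightedHomogeneousComponent_isWeightedHomogeneous d _
  -- elimination
  have helim : ∀ Q : MvPolynomial U K, ∃ R s, Q = ren R + s * P := by
    intro Q
    obtain ⟨R, hR⟩ := elim wgt S.pos (fun _ : Fin 1 => P) (fun _ => e) (fun _ => hP)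
      (n' := Fintype.card {k // k ≠ u}) (fun j => ((Fintype.equivFin {k // k ≠ u}).symm j).1) (by
        intro k
        have hsum : ∀ f : U → (U → K),
            ∑ j, f ((Fintype.equivFin {k // k ≠ u}).symm j).1 = ∑ k ∈ Finset.univ.erase u, f k := by
          intro f
          rw [Finset.sum_subtype (p := fun k : U => k ≠ u) (Finset.univ.erase u)
            (fun k => by simp)]
          exact Fintype.sum_equiv (Fintype.equivFin {k // k ≠ u}).symm _ _ (fun j => rfl)
        by_cases hk : k = u
        · refine ⟨fun _ => 1, fun j => - lin ((Fintype.equivFin {k // k ≠ u}).symm j).1 P, ?_⟩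
          rw [hsum (fun k => (- lin k P) • (Pi.single k 1 : U → K))]
          have h2 : (fun l => coeff (Finsupp.single l 1) P) =
              ∑ k, lin k P • (Pi.single k 1 : U → K) := by
            ext l
            simp [Pi.single_apply, lin_eq_coeff]
          simp only [Finset.univ_unique, Finset.sum_singleton, one_smul]
          rw [h2, ← Finset.add_sum_erase _ _ (Finset.mem_univ u), add_assoc,
            ← Finset.sum_add_distrib, h1, hk]
          simp
        · refine ⟨0, Pi.single (Fintype.equivFin {k // k ≠ u} ⟨k, hk⟩) 1, ?_⟩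
          simp only [Pi.zero_apply, zero_smul, Finset.sum_const_zero, zero_add]
          rw [Finset.sum_eq_single (Fintype.equivFin {k // k ≠ u} ⟨k, hk⟩)]
          · rw [Pi.single_eq_same, one_smul]
            simp
          · intro j _ hj
            rw [Pi.single_eq_of_ne hj, zero_smul]
          · intro h
            exact absurd (Finset.mem_univ _) h) Q
    rw [Set.range_const, Ideal.mem_span_singleton'] at hR
    obtain ⟨s, hs⟩ := hR
    refine ⟨aeval (fun j => X ((Fintype.equivFin {k // k ≠ u}).symm j)) R, s, ?_⟩
    have h3 : ren (aeval (fun j => X ((Fintype.equivFin {k // k ≠ u}).symm j)) R) =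
        aeval (fun j => (X ((Fintype.equivFin {k // k ≠ u}).symm j).1 : MvPolynomial U K)) R := by
      have : ren.comp (aeval (fun j => X ((Fintype.equivFin {k // k ≠ u}).symm j))) =
          aeval (fun j => (X ((Fintype.equivFin {k // k ≠ u}).symm j).1 : MvPolynomial U K)) := by
        apply MvPolynomial.algHom_ext
        intro j
        rw [AlgHom.comp_apply, aeval_X, aeval_X, hren, rename_X]
      exact congrArg (fun φ => φ R) this
    rw [h3, hs]
    ring
  refine ⟨Sum.elim ge ![aeval gen P, aeval gen (ren G)], ?_, ?_⟩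
  · rintro (i | i)
    · exact S.ge_hom i
    · fin_cases i
      · exact ⟨e, S.hom_of_wh hP⟩
      · exact ⟨d, S.hom_of_wh hrG⟩
  · have hrange : Set.range (Sum.elim ge (![aeval gen P, aeval gen (ren G)] :
        Fin 2 → MvPolynomial V K)) = Set.range ge ∪ {aeval gen P, aeval gen (ren G)} := by
      rw [Set.Sum.elim_range, Matrix.range_cons, Matrix.range_cons, Matrix.range_empty,
        Set.union_empty]
      rfl
    rw [hrange]
    apply le_antisymm
    · conv_lhs => rw [S.span]
      rw [Ideal.span_le]
      rintro F (hF | ⟨hF, Q, rfl⟩)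
      · exact Ideal.subset_span (Or.inl hF)
      obtain ⟨R, s, rfl⟩ := helim Q
      have h2 : aeval gen (ren R) ∈ I := by
        have h3 : aeval gen (ren R) = aeval gen (ren R + s * P) - aeval gen s * aeval gen P := by
          rw [map_add, map_mul]; ring
        rw [h3]
        exact I.sub_mem hF (I.mul_mem_left _ hPI)
      obtain ⟨c, rfl⟩ := (hGmem R).1 h2
      refine Ideal.span_mono (s := {aeval gen P, aeval gen (ren G)}) (fun x hx => Or.inr hx) ?_
      rw [Ideal.mem_span_pair]
      refine ⟨aeval gen s, aeval gen (ren c), ?_⟩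
      simp only [map_add, map_mul]
      ring
    · rw [Ideal.span_le]
      rintro x (⟨i, rfl⟩ | rfl | rfl)
      · exact S.ge_mem i
      · exact hPI
      · exact (hGmem G).2 dvd_rfl

end Pool.Agent.X269.CT
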