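import Pool.Agent.X269.CT.Pr
import Pool.Agent.W467.Sym.Core

/-!
Weighted homogeneous polynomials with a nonzero linear part.
-/

set_option autoImplicit false

namespace Pool.Agent.X269.CT

open MvPolynomial

variable {K : Type*} [Field K] {V : Type*}

/-- the coefficient of the variable `k` -/
noncomputable def lin (k : V) (P : MvPolynomial V K) : K := eval 0 (pderiv k P)

theorem lin_eq_coeff (k : V) (P : MvPolynomial V K) : lin k P = coeff (Finsupp.single k 1) P := by
  classical
  rw [lin, eval_zero, constantCoeff_eq, coeff_pderiv]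
  simp

theorem lin_add (k : V) (P Q : MvPolynomial V K) : lin k (P + Q) = lin k P + lin k Q := by
  simp [lin]

theorem lin_sub (k : V) (P Q : MvPolynomial V K) : lin k (P - Q) = lin k P - lin k Q := by
  simp [lin]

theorem lin_mul (k : V) (P Q : MvPolynomial V K) :
    lin k (P * Q) = eval 0 P * lin k Q + eval 0 Q * lin k P := by
  simp [lin, Derivation.leibniz]

theorem eval_zero_of_weight {wgt : V → ℕ} {B : MvPolynomial V K}
    {κ : ℕ} (hκ : 0 < κ) (hB : IsWeightedHomogeneous wgt B κ) : eval 0 B = 0 := by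
  rw [eval_zero, constantCoeff_eq]
  by_contra h
  have := hB h
  rw [map_zero] at this
  omega

theorem weight_of_lin {wgt : V → ℕ} {B : MvPolynomial V K} {κ : ℕ}
    (hB : IsWeightedHomogeneous wgt B κ) {u : V} (hu : lin u B ≠ 0) : wgt u = κ := by
  classical
  rw [lin_eq_coeff] at hu
  rw [← hB hu, Finsupp.weight_single, one_smul]

theorem eq_zero_of_weight {wgt : V → ℕ} (hw : ∀ k, 0 < wgt k) {v : V →₀ ℕ}
    (h : Finsupp.weight wgt v = 0) : v = 0 := by
  ext j
  by_contra h8
  have h10 := Finsupp.le_weight_of_ne_zero' wgt (s := j) (f := v) h8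
  have h11 := hw j
  omega

/-- the derivative with respect to a variable of large weight -/
theorem pderiv_high {wgt : V → ℕ} (hw : ∀ k, 0 < wgt k) {B : MvPolynomial V K} {κ : ℕ}
    (hB : IsWeightedHomogeneous wgt B κ) {u : V} (hu : κ ≤ wgt u) :
    pderiv u B = C (lin u B) := by
  classical
  apply MvPolynomial.ext
  intro v
  rw [coeff_C]
  by_cases hv : v = 0
  · rw [if_pos hv.symm, hv, lin_eq_coeff, coeff_pderiv]
    simp
  rw [if_neg (Ne.symm hv), coeff_pderiv]
  have : coeff (v + Finsupp.single u 1) B = 0 := by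
    by_contra h
    have h1 := hB h
    rw [map_add, Finsupp.weight_single, one_smul] at h1
    exact hv (eq_zero_of_weight hw (by omega))
  rw [this, zero_mul]

/-- A weighted homogeneous polynomial with a nonzero linear part is prime. -/
theorem prime_of_lin {wgt : V → ℕ} (hw : ∀ k, 0 < wgt k) {B : MvPolynomial V K} {κ : ℕ}
    (hB : IsWeightedHomogeneous wgt B κ) {u : V} (hu : lin u B = 1) : Prime B := by
  classical
  have hκ : wgt u = κ := weight_of_lin hB (by rw [hu]; exact one_ne_zero)
  set Q := B - X u with hQ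
  have hQv : u ∉ Q.vars := by
    intro h
    rw [mem_vars] at h
    obtain ⟨v, hv, hvu⟩ := h
    have hv' : coeff v Q ≠ 0 := mem_support_iff.1 hv
    have hvu' : v u ≠ 0 := Finsupp.mem_support_iff.1 hvu
    have h1 : Finsupp.single u 1 ≤ v := by
      rw [Finsupp.single_le_iff]; omega
    have h2 : v = Finsupp.single u 1 + (v - Finsupp.single u 1) := (add_tsub_cancel_of_le h1).symm
    have h3 : v = Finsupp.single u 1 := by
      by_contra hne
      rw [hQ, coeff_sub, coeff_X, if_neg (Ne.symm hne), sub_zero] at hv'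
      have h4 := hB hv'
      rw [h2, map_add, Finsupp.weight_single, one_smul] at h4
      have h5 : Finsupp.weight wgt (v - Finsupp.single u 1) = 0 := by omega
      have h6 := eq_zero_of_weight hw h5
      rw [h6, add_zero] at h2
      exact hne h2
    apply hv'
    rw [hQ, coeff_sub, h3, ← lin_eq_coeff, hu, coeff_X, if_pos rfl, sub_self]
  set ρ : MvPolynomial V K →ₐ[K] MvPolynomial V K :=
    aeval fun k => if k = u then X u - B else X k with hρ
  have hρQ : ρ Q = Q := by
    have : (ρ : MvPolynomial V K →+* MvPolynomial V K) Q = (RingHom.id _) Q := by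
      apply hom_congr_vars
      · ext c
        simp [hρ]
      · intro i hi _
        have : i ≠ u := fun h => hQv (h ▸ hi)
        simp [hρ, this]
      · rfl
    simpa using this
  have hρB : ρ B = 0 := by
    have h1 : B = X u + Q := by rw [hQ]; ring
    have h2 : ρ (X u) = X u - B := by rw [hρ, aeval_X, if_pos rfl]
    have h3 : ρ B = ρ (X u) + ρ Q := by rw [← map_add, ← h1]
    rw [h3, h2, hρQ, hQ]
    ring
  have hmod : ∀ T, T - ρ T ∈ Ideal.span {B} := by
    intro T
    rw [← Ideal.Quotient.eq]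
    have : (Ideal.Quotient.mkₐ K (Ideal.span {B})) =
        (Ideal.Quotient.mkₐ K (Ideal.span {B})).comp ρ := by
      apply MvPolynomial.algHom_ext
      intro k
      rw [AlgHom.comp_apply, hρ, aeval_X]
      by_cases hk : k = u
      · rw [if_pos hk, map_sub, hk]
        have : (Ideal.Quotient.mkₐ K (Ideal.span {B})) B = 0 :=
          Ideal.Quotient.eq_zero_iff_mem.2 (Ideal.mem_span_singleton_self B)
        rw [this, sub_zero]
      · rw [if_neg hk]
    exact congrArg (fun φ => φ T) this
  have hker : RingHom.ker ρ = Ideal.span {B} := by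
    ext T
    rw [RingHom.mem_ker]
    constructor
    · intro h
      have := hmod T
      rwa [h, sub_zero] at this
    · intro h
      obtain ⟨c, rfl⟩ := Ideal.mem_span_singleton'.1 h
      rw [map_mul, hρB, mul_zero]
  have hB0 : B ≠ 0 := by
    rintro rfl
    rw [lin, map_zero, map_zero] at hu
    exact zero_ne_one hu
  rw [← Ideal.span_singleton_prime hB0, ← hker]
  exact RingHom.ker_isPrime _

variable [Fintype V] [DecidableEq V]

/-- elimination of two variables -/
theorem elim2 {wgt : V → ℕ} (hw : ∀ k, 0 < wgt k) {B₁ B₂ : MvPolynomial V K} {κ₁ κ₂ : ℕ}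
    (hB₁ : IsWeightedHomogeneous wgt B₁ κ₁) (hB₂ : IsWeightedHomogeneous wgt B₂ κ₂) {u₁ u₂ : V}
    (h11 : lin u₁ B₁ = 1) (h12 : lin u₂ B₁ = 0) (h21 : lin u₁ B₂ = 0) (h22 : lin u₂ B₂ = 1)
    (Q : MvPolynomial V K) : ∃ R s₁ s₂, Q = R + s₁ * B₁ + s₂ * B₂ ∧ pderiv u₁ R = 0 ∧
      pderiv u₂ R = 0 := by
  classical
  set W := {k : V // k ≠ u₁ ∧ k ≠ u₂} with hW
  set w : Fin (Fintype.card W) → V := fun j => ((Fintype.equivFin W).symm j).1 with hwd
  have hne : u₁ ≠ u₂ := by
    intro h
    rw [h, h12] at h11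
    exact zero_ne_one h11
  have hsumW : ∀ f : V → (V → K), ∑ j, f (w j) = ∑ k : W, f k.1 := by
    intro f
    exact Fintype.sum_equiv (Fintype.equivFin W).symm _ _ (fun j => rfl)
  have hsplit : ∀ L : V → K, L = L u₁ • Pi.single u₁ 1 + L u₂ • Pi.single u₂ 1 +
      ∑ j, L (w j) • (Pi.single (w j) 1 : V → K) := by
    intro L
    rw [hsumW (fun k => L k • (Pi.single k 1 : V → K))]
    have h1 : L = ∑ k, L k • (Pi.single k 1 : V → K) := by
      ext l
      simp [Pi.single_apply]
    have h2 : ∑ k : W, L k.1 • (Pi.single k.1 1 : V → K) =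
        ∑ k ∈ Finset.univ.filter (fun k : V => k ≠ u₁ ∧ k ≠ u₂), L k • (Pi.single k 1 : V → K) := by
      symm
      rw [Finset.sum_subtype (p := fun k : V => k ≠ u₁ ∧ k ≠ u₂)
        (Finset.univ.filter (fun k : V => k ≠ u₁ ∧ k ≠ u₂)) (fun k => by simp)]
    rw [h2]
    conv_lhs => rw [h1]
    rw [← Finset.sum_filter_add_sum_filter_not Finset.univ (fun k : V => k ≠ u₁ ∧ k ≠ u₂), add_comm]
    congr 1
    have h3 : Finset.univ.filter (fun k : V => ¬ (k ≠ u₁ ∧ k ≠ u₂)) = {u₁, u₂} := by
      ext k
      simp only [Finset.mem_filter, Finset.mem_univ, true_and, Finset.mem_insert,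
        Finset.mem_singleton]
      tauto
    rw [h3, Finset.sum_pair hne]
  have hcond : ∀ k : V, ∃ (α : Fin 2 → K) (β : Fin (Fintype.card W) → K), (Pi.single k 1 : V → K) =
      ∑ i, α i • (fun l => coeff (Finsupp.single l 1) ((![B₁, B₂] : Fin 2 → MvPolynomial V K) i)) +
      ∑ j, β j • Pi.single (w j) 1 := by
    intro k
    simp only [Fin.sum_univ_two, Matrix.cons_val_zero, Matrix.cons_val_one, ← lin_eq_coeff]
    by_cases hk1 : k = u₁
    · refine ⟨![1, 0], fun j => - lin (w j) B₁, ?_⟩
      have h1 := hsplit (fun l => lin l B₁)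
      simp only [h11, h12, one_smul, zero_smul, add_zero] at h1
      simp only [Matrix.cons_val_zero, Matrix.cons_val_one, one_smul, zero_smul, add_zero]
      conv_rhs => rw [h1]
      rw [hk1, add_assoc, ← Finset.sum_add_distrib]
      simp
    by_cases hk2 : k = u₂
    · refine ⟨![0, 1], fun j => - lin (w j) B₂, ?_⟩
      have h1 := hsplit (fun l => lin l B₂)
      simp only [h21, h22, one_smul, zero_smul, zero_add] at h1
      simp only [Matrix.cons_val_zero, Matrix.cons_val_one, one_smul, zero_smul, zero_add]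
      conv_rhs => rw [h1]
      rw [hk2, add_assoc, ← Finset.sum_add_distrib]
      simp
    · refine ⟨0, Pi.single (Fintype.equivFin W ⟨k, hk1, hk2⟩) 1, ?_⟩
      simp only [Pi.zero_apply, zero_smul, add_zero, zero_add]
      rw [Finset.sum_eq_single (Fintype.equivFin W ⟨k, hk1, hk2⟩)]
      · rw [Pi.single_eq_same, one_smul, hwd]
        simp
      · intro j _ hj
        rw [Pi.single_eq_of_ne hj, zero_smul]
      · intro h
        exact absurd (Finset.mem_univ _) h
  obtain ⟨R, hR⟩ := Pool.Agent.W467.Sym.elim wgt hw (![B₁, B₂] : Fin 2 → MvPolynomial V K)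
    ![κ₁, κ₂] (by
      intro i
      fin_cases i
      · exact hB₁
      · exact hB₂) w hcond Q
  have hrange : Set.range (![B₁, B₂] : Fin 2 → MvPolynomial V K) = {B₁, B₂} := by
    rw [Matrix.range_cons, Matrix.range_cons, Matrix.range_empty, Set.union_empty]
    rfl
  rw [hrange, Ideal.mem_span_pair] at hR
  obtain ⟨s₁, s₂, hs⟩ := hR
  have hfree : ∀ u : V, (u = u₁ ∨ u = u₂) →
      pderiv u (aeval (fun j => (X (w j) : MvPolynomial V K)) R) = 0 := by
    intro u hu
    rw [Pool.Agent.W467.Sym.pderiv_aeval]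
    refine Finset.sum_eq_zero fun j _ => ?_
    have : w j ≠ u := by
      rcases hu with rfl | rfl
      · exact ((Fintype.equivFin W).symm j).2.1
      · exact ((Fintype.equivFin W).symm j).2.2
    rw [pderiv_X_of_ne this, mul_zero]
  refine ⟨_, s₁, s₂, ?_, hfree u₁ (Or.inl rfl), hfree u₂ (Or.inr rfl)⟩
  rw [add_assoc, hs]
  ring

end Pool.Agent.X269.CT
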