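import Mathlib
import Pool.Agent.H929R2.Hart.W12

/-!
Common zeros of polynomials without constant term.
-/

set_option autoImplicit false

namespace Pool.Agent.X269.CT

open Pool.Agent.H929R2.Hart

theorem common_zero_fin {L : Type*} [Field L] [IsAlgClosed L] {m q : ℕ} (hq : q < m)
    (F : Fin q → MvPolynomial (Fin m) L) (hF : ∀ i, MvPolynomial.eval 0 (F i) = 0) :
    ∃ c : Fin m → L, c ≠ 0 ∧ ∀ i, MvPolynomial.eval c (F i) = 0 := by
  by_contra hcon
  push Not at hcon
  set I : Ideal (MvPolynomial (Fin m) L) := Ideal.span (Set.range F) with hI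
  set P : Ideal (MvPolynomial (Fin m) L) := RingHom.ker (kil L m m) with hP
  have hPmem : ∀ f, f ∈ P ↔ MvPolynomial.eval (0 : Fin m → L) f = 0 := by
    intro f
    rw [hP, RingHom.mem_ker]
    have h1 : kil L m m = (MvPolynomial.aeval (0 : Fin m → MvPolynomial (Fin m) L)) := by
      unfold kil
      congr 1
      funext j
      rw [if_pos j.2]
      rfl
    rw [h1, MvPolynomial.aeval_zero]
    have h2 : MvPolynomial.eval (0 : Fin m → L) f = MvPolynomial.constantCoeff f := by
      rw [MvPolynomial.eval_zero]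
    rw [h2, MvPolynomial.algebraMap_eq, MvPolynomial.C_eq_zero]
  have hPprime : P.IsPrime := RingHom.ker_isPrime _
  have hIP : I ≤ P := by
    rw [hI, Ideal.span_le]
    rintro _ ⟨i, rfl⟩
    rw [SetLike.mem_coe, hPmem]
    exact hF i
  have hPrad : P ≤ I.radical := by
    rw [← MvPolynomial.vanishingIdeal_zeroLocus_eq_radical (K := L) I]
    intro f hf
    rw [MvPolynomial.mem_vanishingIdeal_iff]
    intro x hx
    rw [hI, MvPolynomial.zeroLocus_span] at hx
    have hx0 : x = 0 := by
      by_contra hne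
      obtain ⟨i, hi⟩ := hcon x hne
      refine hi ?_
      have := hx (F i) ⟨i, rfl⟩
      rwa [MvPolynomial.aeval_eq_eval] at this
    rw [hx0]
    have := (hPmem f).1 hf
    rwa [MvPolynomial.aeval_eq_eval]
  have hmin : P ∈ I.minimalPrimes := by
    refine ⟨⟨hPprime, hIP⟩, ?_⟩
    intro Q hQ _
    exact hPrad.trans ((hQ.1.radical_le_iff).2 hQ.2)
  have h1 := Ideal.height_le_card_of_mem_minimalPrimes_span (Set.finite_range F) hmin
  have h2 := kil_height L m m le_rfl
  have h3 : (Set.range F).ncard ≤ q := by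
    have := Set.ncard_image_le (s := (Set.univ : Set (Fin q))) (f := F)
    rw [Set.image_univ, Set.ncard_univ] at this
    simpa using this
  have h4 : (m : ℕ∞) ≤ ((Set.range F).ncard : ℕ∞) := h2.trans h1
  have h5 : m ≤ (Set.range F).ncard := by exact_mod_cast h4
  omega

/-- fewer than `card V` polynomials without constant term in the variables `V` have a nonzero
common zero -/
theorem common_zero_any {L : Type*} [Field L] [IsAlgClosed L] {V : Type*} [Fintype V] {q : ℕ}
    (hq : q < Fintype.card V) (F : Fin q → MvPolynomial V L)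
    (hF : ∀ i, MvPolynomial.eval 0 (F i) = 0) :
    ∃ c : V → L, c ≠ 0 ∧ ∀ i, MvPolynomial.eval c (F i) = 0 := by
  set e := Fintype.equivFin V with he
  obtain ⟨c, hc, hc'⟩ := common_zero_fin hq (fun i => MvPolynomial.rename e (F i)) (by
    intro i
    rw [MvPolynomial.eval_rename]
    exact hF i)
  refine ⟨c ∘ e, ?_, ?_⟩
  · intro h
    apply hc
    funext i
    have := congrFun h (e.symm i)
    simpa using this
  · intro i
    rw [← MvPolynomial.eval_rename]
    exact hc' i

theorem common_zero_sum {L : Type*} [Field L] [IsAlgClosed L] {V E : Type*} [Fintype V]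
    [Fintype E] {q : ℕ} (hq : Fintype.card E + q < Fintype.card V) (G : E → MvPolynomial V L)
    (F : Fin q → MvPolynomial V L) (hG : ∀ i, MvPolynomial.eval 0 (G i) = 0)
    (hF : ∀ i, MvPolynomial.eval 0 (F i) = 0) :
    ∃ c : V → L, c ≠ 0 ∧ (∀ i, MvPolynomial.eval c (G i) = 0) ∧
      ∀ i, MvPolynomial.eval c (F i) = 0 := by
  set e : E ⊕ Fin q ≃ Fin (Fintype.card E + q) :=
    (Equiv.sumCongr (Fintype.equivFin E) (Equiv.refl _)).trans finSumFinEquiv with he
  obtain ⟨c, hc, hc'⟩ := common_zero_any (V := V) hq (fun i => Sum.elim G F (e.symm i)) (by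
    intro i
    rcases e.symm i with j | j
    · exact hG j
    · exact hF j)
  refine ⟨c, hc, fun i => ?_, fun i => ?_⟩
  · have := hc' (e (Sum.inl i))
    rwa [Equiv.symm_apply_apply] at this
  · have := hc' (e (Sum.inr i))
    rwa [Equiv.symm_apply_apply] at this

end Pool.Agent.X269.CT
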