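import Pool.Agent.X269.CT.Geo
import Pool.Agent.X269.CT.Zero

/-!
Smooth varieties of codimension two which come from a weighted projective space.
-/

set_option autoImplicit false

namespace Pool.Agent.X269.CT

open MvPolynomial Pool.Agent.W467.Sym

variable {K : Type*} [Field K] {V U E : Type*} [Fintype V] [Fintype U] [Fintype E]

omit [Fintype V] [Fintype U] [Fintype E] in
theorem lin_rename {t : U} (k : {k // k ≠ t}) (s : MvPolynomial {k // k ≠ t} K) :
    lin k.1 (rename Subtype.val s) = lin k s := by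
  rw [lin, pderiv_rename Subtype.val_injective, eval_rename]
  rfl

omit [Fintype V] [Fintype U] [Fintype E] in
theorem eval_ren_zero {t : U} {y : U → K} (hy : ∀ k, k ≠ t → y k = 0)
    (s : MvPolynomial {k // k ≠ t} K) : eval y (rename Subtype.val s) = eval 0 s := by
  rw [eval_rename]
  have : (y ∘ Subtype.val : {k // k ≠ t} → K) = 0 := funext fun k => hy k.1 k.2
  rw [this]

/-- homogeneous polynomials at multiples of a point -/
theorem eval_smul_hom {P : MvPolynomial V K} {n : ℕ} (hP : P.IsHomogeneous n) (c : K)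
    (x : V → K) : eval (fun i => c * x i) P = c ^ n * eval x P := by
  classical
  rw [eval_eq', eval_eq', Finset.mul_sum]
  refine Finset.sum_congr rfl fun u hu => ?_
  have h1 : Finsupp.weight 1 u = n := hP (mem_support_iff.1 hu)
  have h2 : ∑ i, u i = n := by
    rw [← h1, Finsupp.weight_apply, Finsupp.sum_fintype]
    · simp
    · simp
  simp only [mul_pow]
  rw [Finset.prod_mul_distrib, Finset.prod_pow_eq_pow_sum, h2]
  ring

theorem cone_smul {I : Ideal (MvPolynomial V K)} (hhom : ∀ F ∈ I, ∀ d, homogeneousComponent d F ∈ I)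
    {x : V → K} (hx : x ∈ cone I) (c : K) : (fun i => c * x i) ∈ cone I := by
  intro F hF
  rw [← sum_homogeneousComponent F, map_sum]
  refine Finset.sum_eq_zero fun d _ => ?_
  rw [eval_smul_hom (homogeneousComponent_isHomogeneous d F), hx _ (hhom F hF d), mul_zero]

variable [DecidableEq U]

omit [Fintype V] [Fintype U] [Fintype E] in
theorem eval_symm {t : U} {y : U → K} (hy : ∀ k, k ≠ t → y k = 0)
    (T : Polynomial (MvPolynomial {k // k ≠ t} K)) :
    eval y ((eqv K t).symm T) = Polynomial.eval (y t) (T.map (eval 0)) := by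
  induction T using Polynomial.induction_on' with
  | add p q hp hq => rw [map_add, map_add, hp, hq, Polynomial.map_add, Polynomial.eval_add]
  | monomial n s =>
    rw [eqv_symm_monomial, map_mul, map_pow, eval_X, eval_ren_zero hy, Polynomial.map_monomial,
      Polynomial.eval_monomial]

variable {ge : E → MvPolynomial V K} {gen : U → MvPolynomial V K} {wgt : U → ℕ}
  {disc : MvPolynomial V K} {I : Ideal (MvPolynomial V K)}

theorem Setup.gen_zero (S : Setup ge gen wgt disc I) (k : U) : eval 0 (gen k) = 0 := by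
  have := eval_zero_of_weight (wgt := 1) (S.pos k) (S.gen_hom k)
  exact this

theorem Setup.eval_zero' (S : Setup ge gen wgt disc I) (P : MvPolynomial U K) :
    eval 0 (aeval gen P) = eval 0 P := by
  rw [eval_aeval]
  have : (fun k => eval 0 (gen k)) = (0 : U → K) := funext fun k => S.gen_zero k
  rw [this]

theorem Setup.zero_mem (S : Setup ge gen wgt disc I) : (0 : V → K) ∈ cone I := by
  intro F hF
  have h1 := S.hom F hF 0
  rw [homogeneousComponent_zero] at h1
  rw [eval_zero, constantCoeff_eq]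
  by_contra h
  exact S.prime.ne_top (Ideal.eq_top_of_isUnit_mem _ h1 ((isUnit_iff_ne_zero.2 h).map C))

theorem Setup.low_span' (S : Setup ge gen wgt disc I) {n : ℕ} {F : MvPolynomial V K} (hF : F ∈ I)
    (hn : F.totalDegree < n) :
    F ∈ Ideal.span (Set.range ge ∪ {G | G ∈ I ∧ ∃ e < n, ∃ P : MvPolynomial U K,
      IsWeightedHomogeneous wgt P e ∧ aeval gen P = G}) := by
  rw [← sum_homogeneousComponent F]
  refine Ideal.sum_mem _ fun e he => ?_
  rw [Finset.mem_range] at he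
  rw [S.span] at hF
  have h1 := homogeneousComponent_mem_span hF e
  refine (Ideal.span_le.2 ?_) h1
  rintro _ ⟨t, (⟨k, rfl⟩ | ⟨htI, P, hP⟩), e', he', rfl⟩
  · obtain ⟨d, hd⟩ := S.ge_hom k
    rw [SetLike.mem_coe, homogeneousComponent_of_mem hd]
    split_ifs
    · exact Ideal.subset_span (Or.inl ⟨k, rfl⟩)
    · exact Ideal.zero_mem _
  · refine Ideal.subset_span (Or.inr ⟨S.hom t htI e', e', by omega,
      weightedHomogeneousComponent wgt e' P,
      weightedHomogeneousComponent_isWeightedHomogeneous e' P, ?_⟩)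
    rw [← S.comp, hP]

/-- the linear coefficients of the factor of `X t` -/
noncomputable def bl (t : U) (k : {k // k ≠ t}) (P : MvPolynomial U K) : K :=
  lin k ((eqv K t P).coeff 1)

omit [Fintype V] [Fintype U] [Fintype E] in
theorem bl_sub (t : U) (k : {k // k ≠ t}) (P Q : MvPolynomial U K) :
    bl t k (P - Q) = bl t k P - bl t k Q := by
  rw [bl, map_sub, Polynomial.coeff_sub, lin_sub]; rfl

omit [Fintype V] [Fintype U] [Fintype E] in
theorem bl_C_mul (t : U) (k : {k // k ≠ t}) (c : K) (P : MvPolynomial U K) :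
    bl t k (C c * P) = c * bl t k P := by
  have h1 : C c * P = c • P := (smul_eq_C_mul P c).symm
  rw [bl, h1, map_smul, Polynomial.coeff_smul, smul_eq_C_mul, lin_mul, eval_C]
  have : lin k (C c : MvPolynomial {k // k ≠ t} K) = 0 := by simp [lin]
  rw [this, mul_zero, add_zero]
  rfl

/-- good polynomials -/
structure Gd (gen : U → MvPolynomial V K) (wgt : U → ℕ) (I : Ideal (MvPolynomial V K)) (t : U)
    (e : ℕ) (P : MvPolynomial U K) : Prop where
  lt : e < 2 * wgt t
  wh : IsWeightedHomogeneous wgt P e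
  mem : aeval gen P ∈ I

omit [Fintype V] [Fintype U] [Fintype E] in
theorem Gd.weight {t : U} {e : ℕ} {P : MvPolynomial U K} (h : Gd gen wgt I t e P)
    {k : {k // k ≠ t}} (hk : bl t k P ≠ 0) : wgt t + wgt k.1 = e := by
  rw [bl, lin_eq_coeff] at hk
  have := eqv_weight t wgt h.wh 1 _ hk
  rw [Finsupp.weight_single, one_smul, one_mul, Function.comp_apply] at this
  omega

omit [Fintype V] [Fintype U] [Fintype E] in
theorem Gd.C_mul {t : U} {e : ℕ} {P : MvPolynomial U K} (h : Gd gen wgt I t e P) (c : K) :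
    Gd gen wgt I t e (C c * P) :=
  ⟨h.lt, h.wh.C_mul c, by rw [map_mul]; exact I.mul_mem_left _ h.mem⟩

omit [Fintype V] [Fintype U] [Fintype E] in
theorem Gd.sub {t : U} {e : ℕ} {P Q : MvPolynomial U K} (h : Gd gen wgt I t e P)
    (h' : Gd gen wgt I t e Q) : Gd gen wgt I t e (P - Q) :=
  ⟨h.lt, h.wh.sub h'.wh, by rw [map_sub]; exact I.sub_mem h.mem h'.mem⟩

omit [Fintype V] [Fintype U] [Fintype E] in
/-- combination of two good polynomials, of possibly different weights -/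
theorem Gd.comb {t : U} {e e' : ℕ} {P Q : MvPolynomial U K} (h : Gd gen wgt I t e P)
    (h' : Gd gen wgt I t e' Q) {u : {k // k ≠ t}} (hu : bl t u Q ≠ 0) :
    Gd gen wgt I t e (P - C (bl t u P) * Q) := by
  by_cases hP : bl t u P = 0
  · rw [hP, C_0, zero_mul, sub_zero]
    exact h
  · have h1 := h.weight hP
    have h2 := h'.weight hu
    have h3 : e = e' := by omega
    subst h3
    exact h.sub (h'.C_mul _)

omit [Fintype V] [Fintype U] [Fintype E] in
/-- two good polynomials in normal position -/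
theorem exists_pair (t : U)
    (hex : ∀ v : {k // k ≠ t} → K, ∃ e P, Gd gen wgt I t e P ∧ ∀ c : K, ∃ k, bl t k P ≠ c * v k) :
    ∃ e₁ P₁ e₂ P₂ u₁ u₂, Gd gen wgt I t e₁ P₁ ∧ Gd gen wgt I t e₂ P₂ ∧ bl t u₁ P₁ = 1 ∧
      bl t u₂ P₁ = 0 ∧ bl t u₁ P₂ = 0 ∧ bl t u₂ P₂ = 1 := by
  obtain ⟨e₁, P₀, h₀, hP₀⟩ := hex 0
  obtain ⟨u₁, hu₁⟩ := hP₀ 0
  rw [zero_mul] at hu₁
  set P₁ := C (bl t u₁ P₀)⁻¹ * P₀ with hP₁
  have h₁ : Gd gen wgt I t e₁ P₁ := h₀.C_mul _
  have hb₁ : bl t u₁ P₁ = 1 := by rw [hP₁, bl_C_mul, inv_mul_cancel₀ hu₁]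
  clear_value P₁
  obtain ⟨e₂, Q, hQ, hQ'⟩ := hex (fun k => bl t k P₁)
  set Q₁ := Q - C (bl t u₁ Q) * P₁ with hQ₁
  have hQ₁g : Gd gen wgt I t e₂ Q₁ := hQ.comb h₁ (by rw [hb₁]; exact one_ne_zero)
  have hbQ : bl t u₁ Q₁ = 0 := by rw [hQ₁, bl_sub, bl_C_mul, hb₁, mul_one, sub_self]
  obtain ⟨u₂, hu₂⟩ := hQ' (bl t u₁ Q)
  have hu₂' : bl t u₂ Q₁ ≠ 0 := by
    rw [hQ₁, bl_sub, bl_C_mul]
    exact sub_ne_zero.2 hu₂
  set P₂ := C (bl t u₂ Q₁)⁻¹ * Q₁ with hP₂
  have h₂ : Gd gen wgt I t e₂ P₂ := hQ₁g.C_mul _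
  have hb₂ : bl t u₂ P₂ = 1 := by rw [hP₂, bl_C_mul, inv_mul_cancel₀ hu₂']
  have hb₂₁ : bl t u₁ P₂ = 0 := by rw [hP₂, bl_C_mul, hbQ, mul_zero]
  clear_value P₂
  refine ⟨e₁, P₁ - C (bl t u₂ P₁) * P₂, e₂, P₂, u₁, u₂, h₁.comb h₂ (by rw [hb₂]; exact one_ne_zero),
    h₂, ?_, ?_, hb₂₁, hb₂⟩
  · rw [bl_sub, bl_C_mul, hb₂₁, mul_zero, sub_zero, hb₁]
  · rw [bl_sub, bl_C_mul, hb₂, mul_one, sub_self]

end Pool.Agent.X269.CT
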