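import Pool.Agent.X269.CT.Main

/-!
Smooth varieties of codimension two which come from a weighted projective space: the theorem.
-/

set_option autoImplicit false

namespace Pool.Agent.X269.CT

open MvPolynomial Pool.Agent.W467.Sym

variable {K : Type*} [Field K] {V U E : Type*} [Fintype V] [Fintype U] [Fintype E]
  [DecidableEq U]

variable {ge : E → MvPolynomial V K} {gen : U → MvPolynomial V K} {wgt : U → ℕ}
  {disc : MvPolynomial V K} {I : Ideal (MvPolynomial V K)}

omit [Fintype U] in
theorem symm_jac3 (t : U) (P Q T : Polynomial (MvPolynomial {k // k ≠ t} K))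
    (i j k : {k // k ≠ t}) : (eqv K t).symm (jac3 P Q T i j k) =
    pderiv i.1 ((eqv K t).symm P) * (pderiv j.1 ((eqv K t).symm Q) * pderiv k.1 ((eqv K t).symm T) -
      pderiv k.1 ((eqv K t).symm Q) * pderiv j.1 ((eqv K t).symm T)) -
      pderiv j.1 ((eqv K t).symm P) * (pderiv i.1 ((eqv K t).symm Q) * pderiv k.1 ((eqv K t).symm T) -
      pderiv k.1 ((eqv K t).symm Q) * pderiv i.1 ((eqv K t).symm T)) +
      pderiv k.1 ((eqv K t).symm P) * (pderiv i.1 ((eqv K t).symm Q) * pderiv j.1 ((eqv K t).symm T) -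
      pderiv j.1 ((eqv K t).symm Q) * pderiv i.1 ((eqv K t).symm T)) := by
  simp only [jac3, map_add, map_sub, map_mul, eqv_symm_Dc]

/-- the data of the algebraic theorem -/
theorem Setup.data [IsAlgClosed K] [CharZero K] (S : Setup ge gen wgt disc I) {t : U} {z : V → K}
    (hz : z ∈ cone I) (hγ : ∀ k, k ≠ t → eval z (gen k) = 0) (hγt : eval z (gen t) ≠ 0)
    (hNL : ∀ P : MvPolynomial U K, aeval gen P ∈ I → ∀ u, lin u P = 0)
    {e₁ e₂ : ℕ} {P₁ P₂ : MvPolynomial U K} {u₁ u₂ : {k // k ≠ t}}
    (h₁ : Gd gen wgt I t e₁ P₁) (h₂ : Gd gen wgt I t e₂ P₂) (h11 : bl t u₁ P₁ = 1)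
    (h12 : bl t u₂ P₁ = 0) (h21 : bl t u₁ P₂ = 0) (h22 : bl t u₂ P₂ = 1) :
    Data (wgt ∘ Subtype.val) (I.comap ((aeval gen : MvPolynomial U K →ₐ[K] _).comp
        ((eqv K t).symm : Polynomial (MvPolynomial {k // k ≠ t} K) →ₐ[K] MvPolynomial U K)))
      ((eqv K t P₁).coeff 1) ((eqv K t P₂).coeff 1) ((eqv K t P₁).coeff 0) ((eqv K t P₂).coeff 0)
      (e₁ - wgt t) (e₂ - wgt t) (wgt t) u₁ u₂ := by
  classical
  have hI := S.prime
  set q : Ideal (Polynomial (MvPolynomial {k // k ≠ t} K)) :=
    I.comap ((aeval gen : MvPolynomial U K →ₐ[K] _).comp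
      ((eqv K t).symm : Polynomial (MvPolynomial {k // k ≠ t} K) →ₐ[K] MvPolynomial U K)) with hq
  have hmem : ∀ T, T ∈ q ↔ aeval gen ((eqv K t).symm T) ∈ I := fun T => Iff.rfl
  have w₁ : wgt t + wgt u₁.1 = e₁ := h₁.weight (by rw [h11]; exact one_ne_zero)
  have w₂ : wgt t + wgt u₂.1 = e₂ := h₂.weight (by rw [h22]; exact one_ne_zero)
  have k₁ : wgt t + (e₁ - wgt t) = e₁ := by omega
  have k₂ : wgt t + (e₂ - wgt t) = e₂ := by omega
  obtain ⟨E₁, a₁, b₁, -⟩ := eqv_low t wgt h₁.wh h₁.lt
  obtain ⟨E₂, a₂, b₂, -⟩ := eqv_low t wgt h₂.wh h₂.lt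
  have s₁ : (eqv K t).symm (Polynomial.C ((eqv K t P₁).coeff 1) * Polynomial.X +
      Polynomial.C ((eqv K t P₁).coeff 0)) = P₁ := by
    rw [← E₁, AlgEquiv.symm_apply_apply]
  have s₂ : (eqv K t).symm (Polynomial.C ((eqv K t P₂).coeff 1) * Polynomial.X +
      Polynomial.C ((eqv K t P₂).coeff 0)) = P₂ := by
    rw [← E₂, AlgEquiv.symm_apply_apply]
  have hlin : ∀ s, Polynomial.C s ∈ q → ∀ k, lin k s = 0 := by
    intro s hs k
    rw [hmem, eqv_symm_C] at hs
    rw [← lin_rename]
    exact hNL _ hs _
  refine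
    { pos := fun k => S.pos k.1
      prime := Ideal.comap_isPrime _ _
      hB₁ := b₁ _ k₁
      hB₂ := b₂ _ k₂
      hA₁ := by rw [k₁]; exact a₁
      hA₂ := by rw [k₂]; exact a₂
      h11 := h11
      h12 := h12
      h21 := h21
      h22 := h22
      hF₁ := by rw [hmem, s₁]; exact h₁.mem
      hF₂ := by rw [hmem, s₂]; exact h₂.mem
      hcomp := ?_
      hjac := ?_
      hjac2 := ?_
      hlin := hlin
      hlinA := ?_
      hX := ?_
      hmon := ?_ }
  · intro s hs d
    rw [hmem, eqv_symm_C] at hs ⊢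
    rw [comp_rename]
    exact S.comp_mem hs d
  · intro T hT j
    rw [hmem] at hT ⊢
    have h := S.jac_mem' h₁.mem h₂.mem hT u₁.1 u₂.1 j.1
    rw [symm_jac3, s₁, s₂]
    exact h
  · intro R T hR hT i j
    rw [hmem, eqv_symm_C] at hR hT ⊢
    have h := S.jac_mem' h₁.mem hR hT t i.1 j.1
    rw [pderiv_rename_self, pderiv_rename_self, pderiv_rename Subtype.val_injective,
      pderiv_rename Subtype.val_injective, pderiv_rename Subtype.val_injective,
      pderiv_rename Subtype.val_injective] at h
    have hd : pderiv t P₁ = rename Subtype.val ((eqv K t P₁).coeff 1) := by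
      conv_lhs => rw [← s₁]
      rw [map_add, map_mul, eqv_symm_C, eqv_symm_C, eqv_symm_X, map_add, Derivation.leibniz,
        pderiv_rename_self, pderiv_rename_self, pderiv_X_self]
      simp
    rw [hd] at h
    have h3 : aeval gen (rename Subtype.val ((eqv K t P₁).coeff 1)) *
        aeval gen (rename Subtype.val (pderiv i R * pderiv j T - pderiv j R * pderiv i T)) ∈ I := by
      convert h using 1
      simp only [map_add, map_sub, map_mul, map_zero]
      ring
    refine (hI.mem_or_mem h3).resolve_left fun h4 => ?_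
    have h5 := hNL _ h4 u₁.1
    rw [lin_rename] at h5
    rw [bl, h5] at h11
    exact zero_ne_one h11
  · have h := hNL P₁ h₁.mem u₁.1
    rw [← s₁, map_add, map_mul, eqv_symm_C, eqv_symm_C, eqv_symm_X, lin_add, lin_mul, lin_rename,
      lin_rename] at h
    have e1 : eval (0 : U → K) (X t : MvPolynomial U K) = 0 := by simp
    have e2 : lin u₁.1 (X t : MvPolynomial U K) = 0 := by
      rw [lin, pderiv_X_of_ne (Ne.symm u₁.2), map_zero]
    rw [e1, e2, mul_zero, zero_mul, zero_add, zero_add] at h
    exact h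
  · intro θ hθ
    rw [hmem, map_add, eqv_symm_C, eqv_symm_X] at hθ
    have h := hNL _ hθ t
    rw [lin_add, lin, pderiv_X_self, map_one, lin, pderiv_rename_self, map_zero, add_zero] at h
    exact one_ne_zero h
  · intro e T hT hTe hT1
    rw [hmem] at hT
    have h0 : T.map (eval (0 : {k // k ≠ t} → K)) = 0 := by
      apply Polynomial.funext
      intro c
      rw [Polynomial.eval_zero]
      obtain ⟨l, hl⟩ := IsAlgClosed.exists_pow_nat_eq (c / eval z (gen t)) (S.pos t)
      have h1 := cone_smul S.hom hz l _ hT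
      rw [eval_aeval] at h1
      have h2 : ∀ k, eval (fun i => l * z i) (gen k) = l ^ wgt k * eval z (gen k) :=
        fun k => eval_smul_hom (S.gen_hom k) l z
      rw [eval_symm (t := t) (fun k hk => by rw [h2, hγ k hk, mul_zero])] at h1
      rw [h2, hl, div_mul_cancel₀ _ hγt] at h1
      exact h1
    have h1 := congrArg (fun U => Polynomial.coeff U e) h0
    simp only [Polynomial.coeff_map, hT1, map_one, Polynomial.coeff_zero] at h1
    exact one_ne_zero h1

/-- The theorem: a smooth variety of codimension two which comes from a weighted projective space,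
cut out by equations of low degree at the last coordinate point. -/
theorem Setup.main [IsAlgClosed K] [CharZero K] (S : Setup ge gen wgt disc I) {t : U} {z : V → K}
    (hz0 : z ≠ 0) (hzE : ∀ k, eval z (ge k) = 0)
    (hγ : ∀ k, k ≠ t → eval z (gen k) = 0) (hγt : eval z (gen t) ≠ 0)
    (hcard : Fintype.card E + 7 ≤ Fintype.card V)
    (hcut1 : z ∉ cone I → ∃ F ∈ I, F.totalDegree < 2 * wgt t ∧ eval z F ≠ 0)
    (hcut2 : z ∈ cone I → conormal I z ≤
      Submodule.span K {ξ | ∃ F ∈ I, F.totalDegree < 2 * wgt t ∧ ξ = grad F z}) :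
    ∃ F : E ⊕ Fin 2 → MvPolynomial V K, (∀ i, ∃ d, (F i).IsHomogeneous d) ∧
      I = Ideal.span (Set.range F) := by
  classical
  have hI := S.prime
  by_cases hlin : ∃ (P : MvPolynomial U K) (e : ℕ) (u : U), IsWeightedHomogeneous wgt P e ∧
      aeval gen P ∈ I ∧ lin u P ≠ 0
  · obtain ⟨P, e, u, h1, h2, h3⟩ := hlin
    exact S.of_lin h1 h2 h3
  push Not at hlin
  have hNL : ∀ P : MvPolynomial U K, aeval gen P ∈ I → ∀ u, lin u P = 0 := by
    intro P hP u
    have h1 := hlin (weightedHomogeneousComponent wgt (wgt u) P) (wgt u) u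
      (weightedHomogeneousComponent_isWeightedHomogeneous _ _) (S.comp_mem hP _)
    rw [lin_eq_coeff, coeff_weightedHomogeneousComponent, Finsupp.weight_single, one_smul,
      if_pos rfl] at h1
    rw [lin_eq_coeff, h1]
  have hconst : ∀ P : MvPolynomial U K, aeval gen P ∈ I → eval 0 P = 0 := by
    intro P hP
    rw [← S.eval_zero']
    exact S.zero_mem _ hP
  -- the structure of the elements of low weight
  have hlow : ∀ P e, Gd gen wgt I t e P → eval z (aeval gen P) = 0 ∧
      ∀ k, eval (fun k => eval z (gen k)) (pderiv k P) =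
        if h : k ≠ t then eval z (gen t) * bl t ⟨k, h⟩ P else 0 := by
    intro P e hP
    obtain ⟨E, a, -, -⟩ := eqv_low t wgt hP.wh hP.lt
    set B := (eqv K t P).coeff 1 with hB
    set A := (eqv K t P).coeff 0 with hA
    have hPE : P = rename Subtype.val B * X t + rename Subtype.val A := by
      have := congrArg (eqv K t).symm E
      rw [AlgEquiv.symm_apply_apply, map_add, map_mul, eqv_symm_C, eqv_symm_C, eqv_symm_X] at this
      exact this
    have hB0 : eval 0 B = 0 := by
      have h1 := hNL P hP.mem t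
      rw [hPE, lin_add, lin_mul, lin, lin, lin, pderiv_X_self, pderiv_rename_self,
        pderiv_rename_self] at h1
      simp only [map_one, map_zero, mul_one, mul_zero, add_zero] at h1
      rwa [eval_ren_zero (y := (0 : U → K)) (fun _ _ => rfl)] at h1
    have hA0 : eval 0 A = 0 := by
      have h1 := hconst P hP.mem
      rw [hPE, map_add, map_mul, eval_ren_zero (y := (0 : U → K)) (fun _ _ => rfl), eval_ren_zero (y := (0 : U → K)) (fun _ _ => rfl),
        hB0, zero_mul, zero_add] at h1
      exact h1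
    refine ⟨?_, ?_⟩
    · rw [eval_aeval, hPE, map_add, map_mul, eval_ren_zero hγ, eval_ren_zero hγ, hB0, hA0, zero_mul,
        add_zero]
    · intro k
      split_ifs with hk
      · have h1 := hNL P hP.mem k
        have e1 : eval (0 : U → K) (X t : MvPolynomial U K) = 0 := by simp
        have e2 : lin k (X t : MvPolynomial U K) = 0 := by
          rw [lin, pderiv_X_of_ne (Ne.symm hk), map_zero]
        rw [hPE, lin_add, lin_mul, e1, e2, mul_zero, zero_mul, zero_add, zero_add] at h1
        have h2 := lin_rename ⟨k, hk⟩ A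
        have h4 : pderiv k (rename Subtype.val B) = rename Subtype.val (pderiv ⟨k, hk⟩ B) :=
          pderiv_rename Subtype.val_injective (⟨k, hk⟩ : {k // k ≠ t}) B
        have h5 : pderiv k (rename Subtype.val A) = rename Subtype.val (pderiv ⟨k, hk⟩ A) :=
          pderiv_rename Subtype.val_injective (⟨k, hk⟩ : {k // k ≠ t}) A
        conv_lhs => rw [hPE]
        rw [map_add, Derivation.leibniz, pderiv_X_of_ne (Ne.symm hk), smul_zero, zero_add, h4, h5,
          smul_eq_mul, map_add, map_mul, eval_X, eval_ren_zero hγ, eval_ren_zero hγ]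
        rw [h1] at h2
        rw [lin] at h2
        rw [← h2, add_zero]
        rfl
      · push Not at hk
        subst hk
        conv_lhs => rw [hPE]
        rw [map_add, Derivation.leibniz, pderiv_X_self, pderiv_rename_self, pderiv_rename_self,
          smul_zero, add_zero, add_zero, smul_eq_mul, mul_one, eval_ren_zero hγ, hB0]
  -- the point lies on the variety
  have hz : z ∈ cone I := by
    by_contra hz
    obtain ⟨F, hF, hFd, hFz⟩ := hcut1 hz
    apply hFz
    refine (grad_mem_span (x := z) ?_ (S.low_span' hF hFd)).1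
    rintro G (⟨k, rfl⟩ | ⟨hG, e, he, P, hP, rfl⟩)
    · exact hzE k
    · exact (hlow P e ⟨he, hP, hG⟩).1
  -- two polynomials
  have hpair := exists_pair (gen := gen) (wgt := wgt) (I := I) t (by
    intro v
    by_contra hcon
    push Not at hcon
    set ξ₀ : V → K := ∑ k : {k // k ≠ t}, v k • grad (gen k.1) z with hξ₀
    have h1 : conormal I z ≤ Submodule.span K (Set.range (fun k => grad (ge k) z)) ⊔
        Submodule.span K {ξ₀} := by
      refine (hcut2 hz).trans ?_
      rw [Submodule.span_le]
      rintro _ ⟨F, hF, hFd, rfl⟩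
      have h2 := (grad_mem_span (x := z) (by
        rintro G (⟨k, rfl⟩ | ⟨hG, -⟩)
        · exact hzE k
        · exact hz G hG) (S.low_span' hF hFd)).2
      refine (Submodule.span_le.2 ?_) h2
      rintro _ ⟨G, (⟨k, rfl⟩ | ⟨hG, e, he, P, hP, rfl⟩), rfl⟩
      · exact Submodule.mem_sup_left (Submodule.subset_span ⟨k, rfl⟩)
      refine Submodule.mem_sup_right ?_
      have hg : Gd gen wgt I t e P := ⟨he, hP, hG⟩
      obtain ⟨c, hc⟩ := hcon e P hg
      rw [Submodule.mem_span_singleton]
      refine ⟨eval z (gen t) * c, ?_⟩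
      simp only [grad_aeval]
      rw [hξ₀, Finset.smul_sum]
      have h3 : ∀ k, eval (fun k => eval z (gen k)) (pderiv k P) • grad (gen k) z =
          if h : k ≠ t then (eval z (gen t) * bl t ⟨k, h⟩ P) • grad (gen k) z else 0 := by
        intro k
        rw [(hlow P e hg).2 k]
        split_ifs with h
        · rfl
        · rw [zero_smul]
      rw [Finset.sum_congr rfl (fun k _ => h3 k)]
      rw [← Finset.sum_subset (Finset.subset_univ (Finset.univ.erase t)) (by
        intro k _ hk
        have : k = t := by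
          by_contra h
          exact hk (Finset.mem_erase.2 ⟨h, Finset.mem_univ _⟩)
        rw [dif_neg (by simpa using this)])]
      rw [Finset.sum_subtype (p := fun k : U => k ≠ t) (Finset.univ.erase t) (fun k => by simp)]
      refine Finset.sum_congr rfl fun k _ => ?_
      rw [dif_pos k.2, smul_smul]
      congr 1
      rw [hc k]
      ring
    have h2 := Submodule.finrank_mono h1
    rw [S.smooth z hz hz0] at h2
    have h3 : Module.finrank K (Submodule.span K {ξ₀}) ≤ 1 :=
      (finrank_span_le_card ({ξ₀} : Set (V → K))).trans (by simp)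
    have h4 : Module.finrank K (Submodule.span K (Set.range (fun k => grad (ge k) z))) ≤
        Fintype.card E := finrank_range_le_card _
    have h5 := Submodule.finrank_add_le_finrank_add_finrank
      (Submodule.span K (Set.range (fun k => grad (ge k) z))) (Submodule.span K {ξ₀})
    omega)
  obtain ⟨e₁, P₁, e₂, P₂, u₁, u₂, h₁, h₂, h11, h12, h21, h22⟩ := hpair
  have D := S.data hz hγ hγt hNL h₁ h₂ h11 h12 h21 h22
  obtain ⟨E₁, -, -, -⟩ := eqv_low t wgt h₁.wh h₁.lt
  obtain ⟨E₂, -, -, -⟩ := eqv_low t wgt h₂.wh h₂.lt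
  have hmain := D.main
  rw [← E₁, ← E₂] at hmain
  set Φ : Polynomial (MvPolynomial {k // k ≠ t} K) →ₐ[K] MvPolynomial V K :=
    (aeval gen : MvPolynomial U K →ₐ[K] _).comp
      ((eqv K t).symm : Polynomial (MvPolynomial {k // k ≠ t} K) →ₐ[K] MvPolynomial U K) with hΦ
  have hΦe : ∀ P, Φ (eqv K t P) = aeval gen P := by
    intro P
    show aeval gen ((eqv K t).symm (eqv K t P)) = _
    rw [AlgEquiv.symm_apply_apply]
  have hin : ∀ P : MvPolynomial U K, aeval gen P ∈ I → ∀ s : Set (Polynomial (MvPolynomial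
      {k // k ≠ t} K)), I.comap Φ = Ideal.span s → aeval gen P ∈ Ideal.span (Φ '' s) := by
    intro P hP s hs
    have h3 : eqv K t P ∈ I.comap Φ := by
      rw [Ideal.mem_comap, hΦe]
      exact hP
    rw [hs] at h3
    have h4 := Ideal.mem_map_of_mem Φ h3
    rw [Ideal.map_span, hΦe] at h4
    exact h4
  rcases hmain with hmain | ⟨h, g₁, g₂, θ, c1, c2, c3, c4, i1, i2, hmain⟩
  · refine ⟨Sum.elim ge ![aeval gen P₁, aeval gen P₂], ?_, ?_⟩
    · rintro (i | i)
      · exact S.ge_hom i
      · fin_cases i
        · exact ⟨e₁, S.hom_of_wh h₁.wh⟩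
        · exact ⟨e₂, S.hom_of_wh h₂.wh⟩
    · have hrange : Set.range (Sum.elim ge (![aeval gen P₁, aeval gen P₂] :
          Fin 2 → MvPolynomial V K)) = Set.range ge ∪ {aeval gen P₁, aeval gen P₂} := by
        rw [Set.Sum.elim_range, Matrix.range_cons, Matrix.range_cons, Matrix.range_empty,
          Set.union_empty]
        rfl
      rw [hrange]
      apply le_antisymm
      · conv_lhs => rw [S.span]
        rw [Ideal.span_le]
        rintro F (hF | ⟨hF, Q, rfl⟩)
        · exact Ideal.subset_span (Or.inl hF)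
        have h3 := hin Q hF _ hmain
        rw [Set.image_pair, hΦe, hΦe] at h3
        exact Ideal.span_mono (fun x hx => Or.inr hx) h3
      · rw [Ideal.span_le]
        rintro x (⟨i, rfl⟩ | rfl | rfl)
        · exact S.ge_mem i
        · exact h₁.mem
        · exact h₂.mem
  · exfalso
    set B₁ := (eqv K t P₁).coeff 1 with hB₁
    set B₂ := (eqv K t P₂).coeff 1 with hB₂
    have b1 : eval 0 B₁ = 0 := eval_zero_of_weight (κ := e₁ - wgt t) (by
      have := h₁.weight (k := u₁) (by rw [h11]; exact one_ne_zero)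
      have := S.pos u₁.1
      omega) D.hB₁
    have b2 : eval 0 B₂ = 0 := eval_zero_of_weight (κ := e₂ - wgt t) (by
      have := h₂.weight (k := u₂) (by rw [h22]; exact one_ne_zero)
      have := S.pos u₂.1
      omega) D.hB₂
    set ren : MvPolynomial {k // k ≠ t} K →ₐ[K] MvPolynomial U K := rename Subtype.val with hren
    have hΦC : ∀ s, Φ (Polynomial.C s) = aeval gen (ren s) := by
      intro s
      show aeval gen ((eqv K t).symm (Polynomial.C s)) = _
      rw [eqv_symm_C]
    have hΦX : Φ Polynomial.X = gen t := by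
      show aeval gen ((eqv K t).symm Polynomial.X) = _
      rw [eqv_symm_X, aeval_X]
    have hren0 : ∀ s, eval 0 (aeval gen (ren s)) = eval 0 s := by
      intro s
      rw [S.eval_zero', hren, eval_ren_zero (y := (0 : U → K)) (fun _ _ => rfl)]
    obtain ⟨x, hx0, hx'⟩ := common_zero_sum (V := V) (E := E) (q := 6) (by omega) ge
      ![aeval gen (ren B₁), aeval gen (ren B₂), gen t + aeval gen (ren θ), aeval gen (ren h),
        aeval gen (ren g₁), aeval gen (ren g₂)] (fun k => S.zero_mem _ (S.ge_mem k)) (by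
        intro i
        fin_cases i
        · exact (hren0 _).trans b1
        · exact (hren0 _).trans b2
        · show eval 0 (gen t + aeval gen (ren θ)) = 0
          rw [map_add, S.gen_zero, hren0, c4, add_zero]
        · exact (hren0 _).trans c1
        · exact (hren0 _).trans c2
        · exact (hren0 _).trans c3)
    obtain ⟨hxE, hx⟩ := hx'
    have x1 : eval x (aeval gen (ren B₁)) = 0 := hx 0
    have x2 : eval x (aeval gen (ren B₂)) = 0 := hx 1
    have x3 : eval x (gen t + aeval gen (ren θ)) = 0 := hx 2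
    have x4 : eval x (aeval gen (ren h)) = 0 := hx 3
    have x5 : eval x (aeval gen (ren g₁)) = 0 := hx 4
    have x6 : eval x (aeval gen (ren g₂)) = 0 := hx 5
    have hprod : ∀ F G : MvPolynomial V K, eval x F = 0 → eval x G = 0 →
        eval x (F * G) = 0 ∧ grad (F * G) x = 0 := by
      intro F G hF hG
      refine ⟨by rw [map_mul, hF, zero_mul], ?_⟩
      rw [grad_mul, hF, hG, zero_smul, zero_smul, add_zero]
    have hgsub : ∀ F G : MvPolynomial V K, grad (F - G) x = grad F x - grad G x := by
      intro F G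
      ext i
      simp [grad]
    have hgens : ∀ F ∈ Φ '' {eqv K t P₁, eqv K t P₂,
        Polynomial.C g₁ * Polynomial.C B₁ + Polynomial.C g₂ * Polynomial.C B₂},
        eval x F = 0 ∧ grad F x = 0 := by
      rintro _ ⟨T, (rfl | rfl | rfl), rfl⟩
      · have e : Φ (Polynomial.C B₁ * (Polynomial.X + Polynomial.C θ) -
            Polynomial.C h * Polynomial.C g₂) = aeval gen (ren B₁) * (gen t + aeval gen (ren θ)) -
            aeval gen (ren h) * aeval gen (ren g₂) := by
          simp only [map_sub, map_add, map_mul, hΦC, hΦX]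
        rw [i1, e]
        obtain ⟨y1, y2⟩ := hprod _ _ x1 x3
        obtain ⟨y3, y4⟩ := hprod _ _ x4 x6
        exact ⟨by rw [map_sub, y1, y3, sub_zero], by rw [hgsub, y2, y4, sub_zero]⟩
      · have e : Φ (Polynomial.C B₂ * (Polynomial.X + Polynomial.C θ) +
            Polynomial.C h * Polynomial.C g₁) = aeval gen (ren B₂) * (gen t + aeval gen (ren θ)) +
            aeval gen (ren h) * aeval gen (ren g₁) := by
          simp only [map_add, map_mul, hΦC, hΦX]
        rw [i2, e]
        obtain ⟨y1, y2⟩ := hprod _ _ x2 x3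
        obtain ⟨y3, y4⟩ := hprod _ _ x4 x5
        exact ⟨by rw [map_add, y1, y3, add_zero], by rw [grad_add, y2, y4, add_zero]⟩
      · have e : Φ (Polynomial.C g₁ * Polynomial.C B₁ + Polynomial.C g₂ * Polynomial.C B₂) =
            aeval gen (ren g₁) * aeval gen (ren B₁) + aeval gen (ren g₂) * aeval gen (ren B₂) := by
          simp only [map_add, map_mul, hΦC]
        rw [e]
        obtain ⟨y1, y2⟩ := hprod _ _ x5 x1
        obtain ⟨y3, y4⟩ := hprod _ _ x6 x2
        exact ⟨by rw [map_add, y1, y3, add_zero], by rw [grad_add, y2, y4, add_zero]⟩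
    have hall : ∀ P : MvPolynomial U K, aeval gen P ∈ I →
        eval x (aeval gen P) = 0 ∧ grad (aeval gen P) x = 0 := by
      intro P hP
      have h3 := hin P hP _ hmain
      obtain ⟨h4, h5⟩ := grad_mem_span (x := x) (fun F hF => (hgens F hF).1) h3
      refine ⟨h4, ?_⟩
      have h6 : Submodule.span K ((fun F => grad F x) '' (Φ '' {eqv K t P₁, eqv K t P₂,
          Polynomial.C g₁ * Polynomial.C B₁ + Polynomial.C g₂ * Polynomial.C B₂})) ≤ ⊥ := by
        rw [Submodule.span_le]
        rintro _ ⟨F, hF, rfl⟩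
        exact (hgens F hF).2
      exact (Submodule.mem_bot K).1 (h6 h5)
    have hgen0 : ∀ F ∈ Set.range ge ∪ {F | F ∈ I ∧ ∃ P : MvPolynomial U K, aeval gen P = F},
        eval x F = 0 := by
      rintro _ (⟨k, rfl⟩ | ⟨h3, P, rfl⟩)
      · exact hxE k
      · exact (hall P h3).1
    have hxI : x ∈ cone I := by
      intro F hF
      rw [S.span] at hF
      exact (grad_mem_span (x := x) hgen0 hF).1
    have hco : conormal I x ≤ Submodule.span K (Set.range (fun k => grad (ge k) x)) := by
      unfold conormal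
      rw [Submodule.span_le]
      rintro _ ⟨F, hF, rfl⟩
      rw [S.span] at hF
      have h3 := (grad_mem_span (x := x) hgen0 hF).2
      refine (Submodule.span_le.2 ?_) h3
      rintro _ ⟨_, (⟨k, rfl⟩ | ⟨h4, P, rfl⟩), rfl⟩
      · exact Submodule.subset_span ⟨k, rfl⟩
      · simp only [(hall P h4).2]
        exact Submodule.zero_mem _
    have h3 := S.smooth x hxI hx0
    have h4 : Module.finrank K (Submodule.span K (Set.range (fun k => grad (ge k) x))) ≤
        Fintype.card E := finrank_range_le_card _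
    have h5 := Submodule.finrank_mono hco
    omega

end Pool.Agent.X269.CT
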