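import Mathlib

/-!
Prime ideals of polynomial rings whose elements have dependent gradients are principal.
-/

set_option autoImplicit false

namespace Pool.Agent.X269.CT

open MvPolynomial

/-- A prime ideal of `S[X]` which meets `S` in zero is principal. -/
theorem principal_poly {S : Type*} [CommRing S] [IsDomain S] [UniqueFactorizationMonoid S]
    (p : Ideal (Polynomial S)) [hp : p.IsPrime] (h0 : ∀ s, Polynomial.C s ∈ p → s = 0) :
    ∃ G, p = Ideal.span {G} := by
  classical
  by_cases hbot : p = ⊥
  · exact ⟨0, by rw [hbot]; simp⟩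
  -- an element of minimal degree
  have hex : ∃ d, ∃ Q ∈ p, Q ≠ 0 ∧ Q.natDegree = d := by
    obtain ⟨Q, hQ, hQ0⟩ := Submodule.exists_mem_ne_zero_of_ne_bot hbot
    exact ⟨_, Q, hQ, hQ0, rfl⟩
  set d := Nat.find hex with hd
  obtain ⟨Q, hQ, hQ0, hQd⟩ := Nat.find_spec hex
  have hmin : ∀ T ∈ p, T ≠ 0 → d ≤ T.natDegree := fun T hT hT0 =>
    Nat.find_min' hex ⟨T, hT, hT0, rfl⟩
  -- a prime factor
  obtain ⟨f, hf, hfQ⟩ := UniqueFactorizationMonoid.exists_prime_factors Q hQ0
  have hfp : f.prod ∈ p := by
    obtain ⟨u, hu⟩ := hfQ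
    have : f.prod = Q * ((u⁻¹ : (Polynomial S)ˣ) : Polynomial S) := by
      rw [← hu]; simp
    rw [this]
    exact p.mul_mem_right _ hQ
  obtain ⟨G, hGf, hGp⟩ := (hp.multiset_prod_mem_iff_exists_mem f).1 hfp
  have hG : Prime G := hf G hGf
  have hGd : G.natDegree = d := by
    apply le_antisymm
    · rw [hd, ← hQd]
      exact Polynomial.natDegree_le_of_dvd ((Multiset.dvd_prod hGf).trans hfQ.dvd) hQ0
    · exact hmin G hGp hG.ne_zero
  have hd0 : 0 < d := by
    rcases Nat.eq_zero_or_pos d with h | h
    · exfalso
      rw [h] at hGd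
      have h1 := Polynomial.eq_C_of_natDegree_eq_zero hGd
      rw [h1] at hGp
      have h2 := h0 _ hGp
      apply hG.ne_zero
      rw [h1, h2, Polynomial.C_0]
    · exact h
  refine ⟨G, le_antisymm ?_ ?_⟩
  · intro T hT
    rw [Ideal.mem_span_singleton]
    induction hn : T.natDegree using Nat.strong_induction_on generalizing T with
    | _ n ih =>
      by_cases hT0 : T = 0
      · rw [hT0]; exact dvd_zero _
      have hdn : d ≤ n := by rw [← hn]; exact hmin T hT hT0
      set U := Polynomial.C G.leadingCoeff * T -
        Polynomial.C T.leadingCoeff * Polynomial.X ^ (n - d) * G with hU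
      have hUp : U ∈ p := p.sub_mem (p.mul_mem_left _ hT) (p.mul_mem_left _ hGp)
      have hGl : G.leadingCoeff ≠ 0 := Polynomial.leadingCoeff_ne_zero.2 hG.ne_zero
      have hTl : T.leadingCoeff ≠ 0 := Polynomial.leadingCoeff_ne_zero.2 hT0
      have hGU : G ∣ U := by
        by_cases hU0 : U = 0
        · rw [hU0]; exact dvd_zero _
        refine ih U.natDegree ?_ hUp rfl
        have h1 : (Polynomial.C G.leadingCoeff * T).natDegree = n := by
          rw [Polynomial.natDegree_C_mul hGl, hn]
        have h2 : (Polynomial.C T.leadingCoeff * Polynomial.X ^ (n - d) * G).natDegree = n := by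
          rw [Polynomial.natDegree_mul (mul_ne_zero (Polynomial.C_ne_zero.2 hTl)
            (pow_ne_zero _ Polynomial.X_ne_zero)) hG.ne_zero,
            Polynomial.natDegree_C_mul_X_pow _ _ hTl, hGd]
          omega
        have h3 : (Polynomial.C G.leadingCoeff * T).leadingCoeff =
            (Polynomial.C T.leadingCoeff * Polynomial.X ^ (n - d) * G).leadingCoeff := by
          simp only [Polynomial.leadingCoeff_mul, Polynomial.leadingCoeff_C,
            Polynomial.leadingCoeff_X_pow, mul_one]
          ring
        have h4 : (Polynomial.C G.leadingCoeff * T) ≠ 0 :=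
          mul_ne_zero (Polynomial.C_ne_zero.2 hGl) hT0
        have h5 : (Polynomial.C T.leadingCoeff * Polynomial.X ^ (n - d) * G) ≠ 0 := by
          intro h
          rw [h, Polynomial.natDegree_zero] at h2
          omega
        have h6 := Polynomial.degree_sub_lt (p := Polynomial.C G.leadingCoeff * T)
          (q := Polynomial.C T.leadingCoeff * Polynomial.X ^ (n - d) * G) (by
            rw [Polynomial.degree_eq_natDegree h4, Polynomial.degree_eq_natDegree h5, h1, h2]) h4 h3
        have h7 := Polynomial.natDegree_lt_natDegree hU0 h6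
        rwa [h1] at h7
      have hGT : G ∣ Polynomial.C G.leadingCoeff * T := by
        have : Polynomial.C G.leadingCoeff * T = U +
            Polynomial.C T.leadingCoeff * Polynomial.X ^ (n - d) * G := by rw [hU]; ring
        rw [this]
        exact dvd_add hGU (Dvd.intro_left _ rfl)
      rcases hG.dvd_or_dvd hGT with h | h
      · exfalso
        have h1 := Polynomial.natDegree_le_of_dvd h (Polynomial.C_ne_zero.2 hGl)
        rw [Polynomial.natDegree_C, hGd] at h1
        omega
      · exact h
  · rw [Ideal.span_singleton_le_iff_mem]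
    exact hGp

variable {K : Type*} [Field K] {V : Type*}

/-- a polynomial in characteristic zero all of whose derivatives vanish is constant -/
theorem eq_C_of_pderiv [CharZero K] (R : MvPolynomial V K)
    (h : ∀ j, pderiv j R = 0) : R = C (coeff 0 R) := by
  classical
  apply MvPolynomial.ext
  intro u
  rw [coeff_C]
  by_cases hu : u = 0
  · rw [if_pos hu.symm, hu]
  rw [if_neg (Ne.symm hu)]
  obtain ⟨j, hj⟩ : ∃ j, u j ≠ 0 := by
    by_contra hcon
    push Not at hcon
    exact hu (by ext j; exact hcon j)
  have h1 := congrArg (coeff (u - Finsupp.single j 1)) (h j)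
  rw [coeff_pderiv] at h1
  have h2 : u - Finsupp.single j 1 + Finsupp.single j 1 = u := by
    apply tsub_add_cancel_of_le
    rw [Finsupp.single_le_iff]
    omega
  rw [h2, coeff_zero] at h1
  refine (mul_eq_zero.1 h1).resolve_right ?_
  have h3 : (((u - Finsupp.single j 1 : V →₀ ℕ) j + 1 : ℕ) : K) ≠ 0 :=
    Nat.cast_ne_zero.2 (Nat.succ_ne_zero _)
  rwa [Nat.cast_add, Nat.cast_one] at h3

theorem totalDegree_pderiv_lt {R : MvPolynomial V K} {n : ℕ} (hn : R.totalDegree = n)
    (h0 : 0 < n) (j : V) : (pderiv j R).totalDegree < n := by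
  classical
  unfold totalDegree
  rw [Finset.sup_lt_iff (by rw [Nat.bot_eq_zero]; exact h0)]
  intro u hu
  rw [mem_support_iff, coeff_pderiv] at hu
  have h2 : u + Finsupp.single j 1 ∈ R.support := mem_support_iff.2 (left_ne_zero_of_mul hu)
  have h3 := le_totalDegree h2
  rw [Finsupp.sum_add_index' (fun _ => rfl) (fun _ _ _ => rfl),
    Finsupp.sum_single_index rfl, hn] at h3
  omega

theorem pderiv_comm' (i j : V) (R : MvPolynomial V K) :
    pderiv i (pderiv j R) = pderiv j (pderiv i R) := by
  classical
  induction R using MvPolynomial.induction_on with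
  | C c => simp
  | add p q hp hq => simp only [map_add, hp, hq]
  | mul_X p k hp =>
    have h0 : ∀ l : V, ∃ c : K, pderiv l (X k : MvPolynomial V K) = C c := by
      intro l
      rw [pderiv_X]
      by_cases h : k = l
      · exact ⟨1, by rw [h, Pi.single_eq_same, C_1]⟩
      · exact ⟨0, by rw [Pi.single_eq_of_ne h, C_0]⟩
    obtain ⟨ci, hci⟩ := h0 i
    obtain ⟨cj, hcj⟩ := h0 j
    simp only [Derivation.leibniz, smul_eq_mul, map_add, hp, hci, hcj, pderiv_C]
    ring

theorem const_zero (p : Ideal (MvPolynomial V K)) (hp : p ≠ ⊤) {R : MvPolynomial V K}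
    (hR : R ∈ p) (h : R.totalDegree = 0) : R = 0 := by
  have h1 := totalDegree_eq_zero_iff_eq_C.1 h
  rw [h1] at hR ⊢
  by_contra h2
  apply hp
  refine Ideal.eq_top_of_isUnit_mem _ hR ((isUnit_iff_ne_zero.2 ?_).map C)
  intro h3
  apply h2
  rw [h3, C_0]

/-- A prime ideal of polynomials the gradients of whose elements are dependent modulo the ideal is
principal. -/
theorem principal_mv [CharZero K] [DecidableEq V] (p : Ideal (MvPolynomial V K))
    [hp : p.IsPrime]
    (h2 : ∀ R ∈ p, ∀ S ∈ p, ∀ i j, pderiv i R * pderiv j S - pderiv j R * pderiv i S ∈ p) :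
    ∃ G, p = Ideal.span {G} := by
  classical
  by_cases hbot : p = ⊥
  · exact ⟨0, by rw [hbot]; simp⟩
  have hex : ∃ d, ∃ Q ∈ p, Q ≠ 0 ∧ Q.totalDegree = d := by
    obtain ⟨Q, hQ, hQ0⟩ := Submodule.exists_mem_ne_zero_of_ne_bot hbot
    exact ⟨_, Q, hQ, hQ0, rfl⟩
  set d := Nat.find hex with hd
  obtain ⟨Q, hQ, hQ0, hQd⟩ := Nat.find_spec hex
  rw [← hd] at hQd
  have hmin : ∀ T ∈ p, T ≠ 0 → d ≤ T.totalDegree := fun T hT hT0 =>
    Nat.find_min' hex ⟨T, hT, hT0, rfl⟩
  have hd0 : 0 < d := by
    rcases Nat.eq_zero_or_pos d with h | h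
    · exact absurd (const_zero p hp.ne_top hQ (by rw [hQd, h])) hQ0
    · exact h
  obtain ⟨i, hi⟩ : ∃ i, pderiv i Q ≠ 0 := by
    by_contra hcon
    push Not at hcon
    have h1 := eq_C_of_pderiv Q hcon
    rw [h1, totalDegree_C] at hQd
    omega
  have hip : pderiv i Q ∉ p := by
    intro h
    have h1 := hmin _ h hi
    have h3 := totalDegree_pderiv_lt hQd hd0 i
    omega
  -- elements which do not involve the variable `i`
  have hno : ∀ T ∈ p, pderiv i T = 0 → T = 0 := by
    intro T hT hiT
    induction hn : T.totalDegree using Nat.strong_induction_on generalizing T with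
    | _ n ih =>
      rcases Nat.eq_zero_or_pos n with h0 | h0
      · exact const_zero p hp.ne_top hT (by rw [hn, h0])
      · have h1 : ∀ j, pderiv j T = 0 := by
          intro j
          refine ih (pderiv j T).totalDegree (totalDegree_pderiv_lt hn h0 j) (pderiv j T) ?_ ?_ rfl
          · have h3 := h2 Q hQ T hT i j
            rw [hiT, mul_zero, sub_zero] at h3
            exact (hp.mem_or_mem h3).resolve_left hip
          · rw [pderiv_comm', hiT, map_zero]
        have h3 := eq_C_of_pderiv T h1
        rw [h3, totalDegree_C] at hn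
        omega
  -- pass to polynomials in the variable `i`
  set e : MvPolynomial V K ≃ₐ[K] Polynomial (MvPolynomial {k // k ≠ i} K) :=
    (renameEquiv K (Equiv.optionSubtypeNe i).symm).trans (optionEquivLeft K {k // k ≠ i}) with he
  set p' : Ideal (Polynomial (MvPolynomial {k // k ≠ i} K)) := p.comap e.symm with hp'
  haveI : p'.IsPrime := Ideal.comap_isPrime _ _
  have hC : ∀ s : MvPolynomial {k // k ≠ i} K, e.symm (Polynomial.C s) =
      rename Subtype.val s := by
    intro s
    rw [AlgEquiv.symm_apply_eq]
    induction s using MvPolynomial.induction_on with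
    | C c =>
      rw [rename_C, he, AlgEquiv.trans_apply]
      simp [optionEquivLeft_C]
    | add a b ha hb => rw [map_add, map_add, map_add, ha, hb]
    | mul_X a k ha =>
      rw [map_mul, map_mul, map_mul, ha, rename_X]
      congr 1
      rw [he, AlgEquiv.trans_apply]
      have : (Equiv.optionSubtypeNe i).symm k.1 = some k := by
        rw [Equiv.symm_apply_eq]
        simp
      simp [this]
  obtain ⟨G, hG⟩ := principal_poly p' (by
    intro s hs
    rw [hp', Ideal.mem_comap, hC] at hs
    have h3 : rename (Subtype.val : {k // k ≠ i} → V) s = 0 := by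
      apply hno _ hs
      have : ∀ s : MvPolynomial {k // k ≠ i} K,
          pderiv i (rename (Subtype.val : {k // k ≠ i} → V) s) = 0 := by
        intro s
        induction s using MvPolynomial.induction_on with
        | C c => simp
        | add a b ha hb => rw [map_add, map_add, ha, hb, add_zero]
        | mul_X a k ha =>
          rw [map_mul, rename_X, Derivation.leibniz, ha, pderiv_X_of_ne k.2]
          simp
      exact this s
    exact rename_injective _ Subtype.val_injective (by rw [h3, map_zero]))
  refine ⟨e.symm G, ?_⟩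
  ext T
  rw [Ideal.mem_span_singleton]
  have h3 : T ∈ p ↔ e T ∈ p' := by
    rw [hp', Ideal.mem_comap, AlgEquiv.symm_apply_apply]
  rw [h3, hG, Ideal.mem_span_singleton]
  constructor
  · intro h
    have := map_dvd e.symm h
    rwa [AlgEquiv.symm_apply_apply] at this
  · intro h
    have := map_dvd e h
    rwa [AlgEquiv.apply_symm_apply] at this

/-- The generator of a principal weighted homogeneous ideal is weighted homogeneous. -/
theorem gen_homog (w : V → ℕ) (G : MvPolynomial V K)
    (hG : ∀ d, G ∣ weightedHomogeneousComponent w d G) :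
    ∃ d, IsWeightedHomogeneous w G d := by
  classical
  by_cases h0 : G = 0
  · exact ⟨0, by rw [h0]; exact isWeightedHomogeneous_zero K w 0⟩
  obtain ⟨u, hu⟩ := MvPolynomial.ne_zero_iff.1 h0
  set d := Finsupp.weight w u with hd
  have hne : weightedHomogeneousComponent w d G ≠ 0 := by
    intro h
    apply hu
    have := congrArg (coeff u) h
    rwa [coeff_weightedHomogeneousComponent, if_pos rfl, coeff_zero] at this
  obtain ⟨U, hU⟩ := hG d
  have hU0 : U ≠ 0 := by
    rintro rfl
    rw [mul_zero] at hU
    exact hne hU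
  have h1 : (weightedHomogeneousComponent w d G).totalDegree ≤ G.totalDegree := by
    apply totalDegree_le_of_support_subset
    intro v hv
    rw [mem_support_iff, coeff_weightedHomogeneousComponent] at hv
    rw [mem_support_iff]
    intro h
    apply hv
    rw [h, ite_self]
  rw [hU, totalDegree_mul_of_isDomain h0 hU0] at h1
  have h2 := totalDegree_eq_zero_iff_eq_C.1 (by omega : U.totalDegree = 0)
  set c := coeff 0 U with hc
  have hc0 : c ≠ 0 := by
    intro h
    rw [h, C_0] at h2
    exact hU0 h2
  refine ⟨d, ?_⟩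
  have h3 : G = C c⁻¹ * weightedHomogeneousComponent w d G := by
    rw [hU, h2, mul_comm G, ← mul_assoc, ← C_mul, inv_mul_cancel₀ hc0, C_1, one_mul]
  rw [h3]
  exact (weightedHomogeneousComponent_isWeightedHomogeneous d G).C_mul _

end Pool.Agent.X269.CT
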