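import Pool.Agent.X269.CT.Main2

/-!
Ideals stable under a finite group generated by reflections.
-/

set_option autoImplicit false

namespace Pool.Agent.X269.CT

open MvPolynomial Pool.Agent.W467.Sym

section refl

variable {K : Type*} [Field K] {V : Type*} [Fintype V] [DecidableEq V]

/-- the linear form with coefficients `α` -/
noncomputable def lform (α : V → K) : MvPolynomial V K := ∑ j, C (α j) * X j

/-- the linear substitution given by a matrix -/
noncomputable def act (g : Matrix V V K) : MvPolynomial V K →ₐ[K] MvPolynomial V K :=
  aeval fun i => ∑ j, C (g i j) * X j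

omit [DecidableEq V] in
theorem act_X (g : Matrix V V K) (i : V) : act g (X i) = ∑ j, C (g i j) * X j := by
  rw [act, aeval_X]

omit [DecidableEq V] in
theorem act_mul (g h : Matrix V V K) (F : MvPolynomial V K) :
    act (g * h) F = act h (act g F) := by
  have : act (g * h) = (act h).comp (act g) := by
    apply MvPolynomial.algHom_ext
    intro i
    rw [AlgHom.comp_apply, act_X, act_X, map_sum]
    simp only [map_mul, algHom_C, algebraMap_eq, act_X, Matrix.mul_apply, map_sum, Finset.mul_sum,
      Finset.sum_mul]
    rw [Finset.sum_comm]
    refine Finset.sum_congr rfl fun k _ => Finset.sum_congr rfl fun j _ => ?_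
    ring
  exact congrArg (fun φ => φ F) this

theorem act_one (F : MvPolynomial V K) : act (1 : Matrix V V K) F = F := by
  have : act (1 : Matrix V V K) = AlgHom.id K _ := by
    apply MvPolynomial.algHom_ext
    intro i
    rw [act_X, AlgHom.id_apply, Finset.sum_eq_single i]
    · simp
    · intro j _ hj
      rw [Matrix.one_apply_ne (Ne.symm hj), C_0, zero_mul]
    · intro h; exact absurd (Finset.mem_univ _) h
  rw [this]; rfl

omit [DecidableEq V] in
theorem totalDegree_act_le (g : Matrix V V K) (F : MvPolynomial V K) :
    (act g F).totalDegree ≤ F.totalDegree := by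
  classical
  conv_lhs => rw [F.as_sum]
  rw [map_sum]
  refine (totalDegree_finset_sum _ _).trans (Finset.sup_le fun u hu => ?_)
  rw [act, aeval_monomial, algebraMap_eq]
  refine (totalDegree_mul _ _).trans ?_
  rw [totalDegree_C, zero_add]
  unfold Finsupp.prod
  refine (totalDegree_finset_prod _ _).trans ?_
  refine le_trans (Finset.sum_le_sum (g := fun i => u i) fun i _ => ?_) (le_totalDegree hu)
  refine (totalDegree_pow _ _).trans ?_
  have : (∑ j, C (g i j) * X j : MvPolynomial V K).totalDegree ≤ 1 := by
    refine (totalDegree_finset_sum _ _).trans (Finset.sup_le fun j _ => ?_)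
    refine (totalDegree_mul _ _).trans ?_
    rw [totalDegree_C, totalDegree_X]
  calc u i * _ ≤ u i * 1 := Nat.mul_le_mul_left _ this
    _ = u i := mul_one _

/-- `F - g F` is divisible by the equation of the hyperplane of the reflection `g` -/
theorem sub_act_refl (v α : V → K) (F : MvPolynomial V K) :
    lform α ∣ F - act (1 + Matrix.vecMulVec v α) F := by
  rw [← Ideal.mem_span_singleton, ← Ideal.Quotient.eq]
  have : (Ideal.Quotient.mkₐ K (Ideal.span {lform α})) =
      (Ideal.Quotient.mkₐ K (Ideal.span {lform α})).comp (act (1 + Matrix.vecMulVec v α)) := by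
    apply MvPolynomial.algHom_ext
    intro i
    rw [AlgHom.comp_apply, act_X]
    have h1 : ∑ j, C ((1 + Matrix.vecMulVec v α) i j) * X j =
        (X i + C (v i) * lform α : MvPolynomial V K) := by
      rw [lform, Finset.mul_sum]
      simp only [Matrix.add_apply, Matrix.vecMulVec_apply, C_add, C_mul, add_mul,
        Finset.sum_add_distrib]
      congr 1
      · rw [Finset.sum_eq_single i]
        · simp
        · intro j _ hj
          rw [Matrix.one_apply_ne (Ne.symm hj), C_0, zero_mul]
        · intro h; exact absurd (Finset.mem_univ _) h
      · refine Finset.sum_congr rfl fun j _ => ?_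
        ring
    have h2 : (Ideal.Quotient.mkₐ K (Ideal.span {lform α})) (lform α) = 0 :=
      Ideal.Quotient.eq_zero_iff_mem.2 (Ideal.mem_span_singleton_self _)
    rw [h1, map_add, map_mul, h2, mul_zero, add_zero]
  exact congrArg (fun φ => φ F) this

theorem lform_zero_iff (α : V → K) (h : lform α = 0) : α = 0 := by
  funext i
  have h1 := congrArg (eval (Pi.single i 1)) h
  rw [lform, map_sum] at h1
  simpa [Pi.single_apply] using h1

/-- an ideal stable under a finite group generated by reflections is generated by invariants, if it
does not contain the equations of the hyperplanes of the reflections -/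
theorem span_invariant [CharZero K] (W : Subgroup (Matrix.GeneralLinearGroup V K)) [Finite W]
    (hW : W = Subgroup.closure {g | g ∈ W ∧ ∃ v α : V → K,
      (g : Matrix V V K) = 1 + Matrix.vecMulVec v α})
    (I : Ideal (MvPolynomial V K)) [hI : I.IsPrime]
    (hst : ∀ g ∈ W, ∀ F ∈ I, act (g : Matrix V V K) F ∈ I)
    (hα : ∀ g ∈ W, ∀ v α : V → K, (g : Matrix V V K) = 1 + Matrix.vecMulVec v α → v ≠ 0 → α ≠ 0 →
      lform α ∉ I) :
    I = Ideal.span {F | F ∈ I ∧ ∀ g ∈ W, act (g : Matrix V V K) F = F} := by
  classical
  set A : Ideal (MvPolynomial V K) :=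
    Ideal.span {F | F ∈ I ∧ ∀ g ∈ W, act (g : Matrix V V K) F = F} with hA
  have hAI : A ≤ I := Ideal.span_le.2 fun F hF => hF.1
  have hAst : ∀ g ∈ W, ∀ F ∈ A, act (g : Matrix V V K) F ∈ A := by
    intro g hg F hF
    have h1 := Ideal.mem_map_of_mem (act (g : Matrix V V K)) hF
    rw [hA, Ideal.map_span] at h1
    refine (Ideal.span_le.2 ?_) h1
    rintro _ ⟨G, hG, rfl⟩
    refine Ideal.subset_span ?_
    rw [hG.2 g hg]
    exact hG
  refine le_antisymm ?_ hAI
  intro F hF
  induction hn : F.totalDegree using Nat.strong_induction_on generalizing F with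
  | _ n ih =>
    -- reflections
    have h1 : ∀ g ∈ W, F - act (g : Matrix V V K) F ∈ A := by
      intro g hg
      rw [hW] at hg
      induction hg using Subgroup.closure_induction with
      | mem g hg =>
        obtain ⟨hgW, v, α, hgv⟩ := hg
        by_cases hv : v = 0
        · have : (g : Matrix V V K) = 1 := by
            rw [hgv, hv]; ext i j; simp [Matrix.vecMulVec_apply]
          rw [this, act_one, sub_self]
          exact A.zero_mem
        by_cases hα0 : α = 0
        · have : (g : Matrix V V K) = 1 := by
            rw [hgv, hα0]; ext i j; simp [Matrix.vecMulVec_apply]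
          rw [this, act_one, sub_self]
          exact A.zero_mem
        obtain ⟨G, hG⟩ := sub_act_refl v α F
        rw [← hgv] at hG
        rw [hG]
        by_cases hG0 : G = 0
        · rw [hG0, mul_zero]
          exact A.zero_mem
        have hl0 : lform α ≠ 0 := fun h => hα0 (lform_zero_iff α h)
        have hGI : G ∈ I := by
          have h2 : lform α * G ∈ I := by
            rw [← hG]
            exact I.sub_mem hF (hst g hgW F hF)
          exact (hI.mem_or_mem h2).resolve_left (hα g hgW v α hgv hv hα0)
        have hl1 : 1 ≤ (lform α).totalDegree := by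
          by_contra h
          have h2 := totalDegree_eq_zero_iff_eq_C.1 (by omega : (lform α).totalDegree = 0)
          have h3 : coeff 0 (lform α) = 0 := by
            rw [← constantCoeff_eq, ← eval_zero, lform]
            simp
          rw [h3, C_0] at h2
          exact hl0 h2
        have hdeg : (lform α * G).totalDegree ≤ n := by
          rw [← hG]
          refine (totalDegree_sub _ _).trans (max_le hn.le ?_)
          exact (totalDegree_act_le _ _).trans hn.le
        rw [totalDegree_mul_of_isDomain hl0 hG0] at hdeg
        exact A.mul_mem_left _ (ih G.totalDegree (by omega) hGI rfl)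
      | one => 
        have : ((1 : Matrix.GeneralLinearGroup V K) : Matrix V V K) = 1 := rfl
        rw [this, act_one, sub_self]
        exact A.zero_mem
      | mul g h hg hh h2 h3 =>
        have e : ((g * h : Matrix.GeneralLinearGroup V K) : Matrix V V K) =
            (g : Matrix V V K) * (h : Matrix V V K) := rfl
        rw [e, act_mul]
        have h4 : F - act (h : Matrix V V K) (act (g : Matrix V V K) F) =
            (F - act (h : Matrix V V K) F) +
              act (h : Matrix V V K) (F - act (g : Matrix V V K) F) := by
          rw [map_sub]; ring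
        rw [h4]
        refine A.add_mem h3 (hAst h ?_ _ h2)
        rw [hW]; exact hh
      | inv g hg h2 =>
        have hgW : g⁻¹ ∈ W := by rw [hW]; exact inv_mem hg
        have h4 : F - act ((g⁻¹ : Matrix.GeneralLinearGroup V K) : Matrix V V K) F =
            - act ((g⁻¹ : Matrix.GeneralLinearGroup V K) : Matrix V V K)
              (F - act (g : Matrix V V K) F) := by
          rw [map_sub, ← act_mul]
          have e : (g : Matrix V V K) * ((g⁻¹ : Matrix.GeneralLinearGroup V K) : Matrix V V K) =
              1 := by
            have : ((g * g⁻¹ : Matrix.GeneralLinearGroup V K) : Matrix V V K) = 1 := by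
              rw [mul_inv_cancel]; rfl
            rw [← this]; rfl
          rw [e, act_one]
          ring
        rw [h4]
        exact A.neg_mem (hAst _ hgW _ h2)
    -- average
    haveI := Fintype.ofFinite W
    have h2 : ∑ g : W, act ((g : Matrix.GeneralLinearGroup V K) : Matrix V V K) F ∈ A := by
      refine Ideal.subset_span ⟨I.sum_mem fun g _ => hst g.1 g.2 F hF, ?_⟩
      intro h hh
      rw [map_sum]
      refine Fintype.sum_equiv (Equiv.mulRight (⟨h, hh⟩ : W)) _ _ fun g => ?_
      rw [← act_mul]
      rfl
    have h3 : ∑ g : W, (F - act ((g : Matrix.GeneralLinearGroup V K) : Matrix V V K) F) ∈ A :=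
      A.sum_mem fun g _ => h1 g.1 g.2
    rw [Finset.sum_sub_distrib, Finset.sum_const, Finset.card_univ] at h3
    have h4 := A.add_mem h3 h2
    rw [sub_add_cancel, nsmul_eq_mul] at h4
    have h5 : F = C ((Fintype.card W : K)⁻¹) * ((Fintype.card W : MvPolynomial V K) * F) := by
      have h6 : (Fintype.card W : MvPolynomial V K) = C (Fintype.card W : K) := by
        rw [map_natCast]
      have h7 : (Fintype.card W : K) ≠ 0 := by
        rw [Nat.cast_ne_zero]
        exact Fintype.card_ne_zero
      rw [h6, ← mul_assoc, ← C_mul, inv_mul_cancel₀ h7, C_1, one_mul]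
    rw [h5]
    exact A.mul_mem_left _ h4

end refl

end Pool.Agent.X269.CT
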