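import Pool.Agent.X269.CT.Lin

/-!
Prime ideals of codimension two which contain two polynomials linear in a variable.
-/

set_option autoImplicit false

namespace Pool.Agent.X269.CT

open MvPolynomial

variable {K : Type*} [Field K] {V : Type*}

/-- the derivative of the coefficients -/
noncomputable def Dc (j : V) (T : Polynomial (MvPolynomial V K)) : Polynomial (MvPolynomial V K) :=
  ∑ n ∈ Finset.range (T.natDegree + 1), Polynomial.monomial n (pderiv j (T.coeff n))

theorem coeff_Dc (j : V) (T : Polynomial (MvPolynomial V K)) (n : ℕ) :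
    (Dc j T).coeff n = pderiv j (T.coeff n) := by
  rw [Dc, Polynomial.finsetSum_coeff]
  simp only [Polynomial.coeff_monomial]
  rw [Finset.sum_ite_eq']
  split_ifs with h
  · rfl
  · rw [Finset.mem_range, not_lt] at h
    rw [Polynomial.coeff_eq_zero_of_natDegree_lt (by omega), map_zero]

theorem natDegree_Dc (j : V) {T : Polynomial (MvPolynomial V K)} {e : ℕ} (h : T.natDegree ≤ e) :
    (Dc j T).natDegree ≤ e := by
  rw [Polynomial.natDegree_le_iff_coeff_eq_zero]
  intro n hn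
  rw [coeff_Dc, Polynomial.coeff_eq_zero_of_natDegree_lt (by omega), map_zero]

/-- the Jacobian determinant of three polynomials with respect to three variables -/
noncomputable def jac3 (P Q T : Polynomial (MvPolynomial V K)) (i j k : V) :
    Polynomial (MvPolynomial V K) :=
  Dc i P * (Dc j Q * Dc k T - Dc k Q * Dc j T) - Dc j P * (Dc i Q * Dc k T - Dc k Q * Dc i T) +
    Dc k P * (Dc i Q * Dc j T - Dc j Q * Dc i T)

theorem coeff_lin_mul {P Q : Polynomial (MvPolynomial V K)} {a b : ℕ} (hP : P.natDegree ≤ a)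
    (hQ : Q.natDegree ≤ b) : (P * Q).coeff (a + b) = P.coeff a * Q.coeff b ∧
      (P * Q).natDegree ≤ a + b :=
  ⟨Polynomial.coeff_mul_add_eq_of_natDegree_le hP hQ, Polynomial.natDegree_mul_le_of_le hP hQ⟩

theorem natDegree_F (B A : MvPolynomial V K) :
    (Polynomial.C B * Polynomial.X + Polynomial.C A).natDegree ≤ 1 :=
  Polynomial.natDegree_linear_le

theorem coeff_F (B A : MvPolynomial V K) :
    (Polynomial.C B * Polynomial.X + Polynomial.C A).coeff 1 = B := by
  simp [Polynomial.coeff_C]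

/-- the leading coefficient of the Jacobian determinant -/
theorem jac3_coeff {B₁ B₂ A₁ A₂ : MvPolynomial V K} {T : Polynomial (MvPolynomial V K)} {e : ℕ}
    (hT : T.natDegree ≤ e) (i j k : V) (hi : pderiv i (T.coeff e) = 0)
    (hj : pderiv j (T.coeff e) = 0) :
    (jac3 (Polynomial.C B₁ * Polynomial.X + Polynomial.C A₁)
      (Polynomial.C B₂ * Polynomial.X + Polynomial.C A₂) T i j k).coeff (1 + (1 + e)) =
      (pderiv i B₁ * pderiv j B₂ - pderiv j B₁ * pderiv i B₂) * pderiv k (T.coeff e) ∧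
    (jac3 (Polynomial.C B₁ * Polynomial.X + Polynomial.C A₁)
      (Polynomial.C B₂ * Polynomial.X + Polynomial.C A₂) T i j k).natDegree ≤ 1 + (1 + e) := by
  set P := Polynomial.C B₁ * Polynomial.X + Polynomial.C A₁ with hP
  set Q := Polynomial.C B₂ * Polynomial.X + Polynomial.C A₂ with hQ
  have dP : ∀ l, (Dc l P).natDegree ≤ 1 := fun l => natDegree_Dc l (natDegree_F _ _)
  have dQ : ∀ l, (Dc l Q).natDegree ≤ 1 := fun l => natDegree_Dc l (natDegree_F _ _)
  have dT : ∀ l, (Dc l T).natDegree ≤ e := fun l => natDegree_Dc l hT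
  have cP : ∀ l, (Dc l P).coeff 1 = pderiv l B₁ := fun l => by rw [coeff_Dc, hP, coeff_F]
  have cQ : ∀ l, (Dc l Q).coeff 1 = pderiv l B₂ := fun l => by rw [coeff_Dc, hQ, coeff_F]
  have cT : ∀ l, (Dc l T).coeff e = pderiv l (T.coeff e) := fun l => coeff_Dc l T e
  have h2 : ∀ l l', (Dc l Q * Dc l' T - Dc l' Q * Dc l T).coeff (1 + e) =
      pderiv l B₂ * pderiv l' (T.coeff e) - pderiv l' B₂ * pderiv l (T.coeff e) ∧
      (Dc l Q * Dc l' T - Dc l' Q * Dc l T).natDegree ≤ 1 + e := by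
    intro l l'
    obtain ⟨h3, h4⟩ := coeff_lin_mul (dQ l) (dT l')
    obtain ⟨h5, h6⟩ := coeff_lin_mul (dQ l') (dT l)
    refine ⟨?_, (Polynomial.natDegree_sub_le_of_le h4 h6).trans (by simp)⟩
    rw [Polynomial.coeff_sub, h3, h5, cQ, cQ, cT, cT]
  obtain ⟨a1, a2⟩ := coeff_lin_mul (dP i) (h2 j k).2
  obtain ⟨a3, a4⟩ := coeff_lin_mul (dP j) (h2 i k).2
  obtain ⟨a5, a6⟩ := coeff_lin_mul (dP k) (h2 i j).2
  constructor
  · rw [jac3, Polynomial.coeff_add, Polynomial.coeff_sub, a1, a3, a5, (h2 j k).1, (h2 i k).1,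
      (h2 i j).1, cP, cP, cP, hi, hj]
    ring
  · exact (Polynomial.natDegree_add_le_of_le (Polynomial.natDegree_sub_le_of_le a2 a4) a6).trans
      (by simp)

variable [Fintype V] [DecidableEq V] [CharZero K]

/-- the data: a prime ideal which contains `B₁ X + A₁` and `B₂ X + A₂` -/
structure Data (wgt : V → ℕ) (q : Ideal (Polynomial (MvPolynomial V K)))
    (B₁ B₂ A₁ A₂ : MvPolynomial V K) (κ₁ κ₂ κt : ℕ) (u₁ u₂ : V) : Prop where
  pos : ∀ k, 0 < wgt k
  prime : q.IsPrime
  hB₁ : IsWeightedHomogeneous wgt B₁ κ₁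
  hB₂ : IsWeightedHomogeneous wgt B₂ κ₂
  hA₁ : IsWeightedHomogeneous wgt A₁ (κt + κ₁)
  hA₂ : IsWeightedHomogeneous wgt A₂ (κt + κ₂)
  h11 : lin u₁ B₁ = 1
  h12 : lin u₂ B₁ = 0
  h21 : lin u₁ B₂ = 0
  h22 : lin u₂ B₂ = 1
  hF₁ : Polynomial.C B₁ * Polynomial.X + Polynomial.C A₁ ∈ q
  hF₂ : Polynomial.C B₂ * Polynomial.X + Polynomial.C A₂ ∈ q
  hcomp : ∀ s, Polynomial.C s ∈ q → ∀ d, Polynomial.C (weightedHomogeneousComponent wgt d s) ∈ q
  hjac : ∀ T ∈ q, ∀ j, jac3 (Polynomial.C B₁ * Polynomial.X + Polynomial.C A₁)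
    (Polynomial.C B₂ * Polynomial.X + Polynomial.C A₂) T u₁ u₂ j ∈ q
  hjac2 : ∀ R S : MvPolynomial V K, Polynomial.C R ∈ q → Polynomial.C S ∈ q → ∀ i j,
    Polynomial.C (pderiv i R * pderiv j S - pderiv j R * pderiv i S) ∈ q
  hlin : ∀ s, Polynomial.C s ∈ q → ∀ k, lin k s = 0
  hlinA : lin u₁ A₁ = 0
  hX : ∀ θ, Polynomial.X + Polynomial.C θ ∉ q
  hmon : ∀ e, ∀ T ∈ q, T.natDegree ≤ e → T.coeff e ≠ 1

variable {wgt : V → ℕ} {q : Ideal (Polynomial (MvPolynomial V K))}
    {B₁ B₂ A₁ A₂ : MvPolynomial V K} {κ₁ κ₂ κt : ℕ} {u₁ u₂ : V}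

omit [Fintype V] [DecidableEq V] [CharZero K] in
theorem Data.det (D : Data wgt q B₁ B₂ A₁ A₂ κ₁ κ₂ κt u₁ u₂) :
    pderiv u₁ B₁ * pderiv u₂ B₂ - pderiv u₂ B₁ * pderiv u₁ B₂ = 1 := by
  have k1 : wgt u₁ = κ₁ := weight_of_lin D.hB₁ (by rw [D.h11]; exact one_ne_zero)
  have k2 : wgt u₂ = κ₂ := weight_of_lin D.hB₂ (by rw [D.h22]; exact one_ne_zero)
  rw [pderiv_high D.pos D.hB₁ k1.ge, pderiv_high D.pos D.hB₂ k2.ge, D.h11, D.h22]
  have : pderiv u₂ B₁ * pderiv u₁ B₂ = 0 := by
    rcases le_total κ₁ κ₂ with h | h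
    · rw [pderiv_high D.pos D.hB₁ (by omega : κ₁ ≤ wgt u₂), D.h12, C_0, zero_mul]
    · rw [pderiv_high D.pos D.hB₂ (by omega : κ₂ ≤ wgt u₁), D.h21, C_0, mul_zero]
  rw [this, C_1, mul_one, sub_zero]

/-- no leading coefficient is free of the two variables -/
theorem Data.lead_zero (D : Data wgt q B₁ B₂ A₁ A₂ κ₁ κ₂ κt u₁ u₂) (R : MvPolynomial V K)
    (h1 : pderiv u₁ R = 0) (h2 : pderiv u₂ R = 0)
    (hR : ∃ e, ∃ T ∈ q, T.natDegree ≤ e ∧ T.coeff e = R) : R = 0 := by
  induction hn : R.totalDegree using Nat.strong_induction_on generalizing R with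
  | _ n ih =>
    have hconst : ∀ c : K, R = C c → R = 0 := by
      intro c hc
      obtain ⟨e, T, hT, hTe, hTR⟩ := hR
      by_contra hne
      have hc0 : c ≠ 0 := by
        rintro rfl
        rw [C_0] at hc
        exact hne hc
      refine D.hmon e (Polynomial.C (C c⁻¹) * T) (q.mul_mem_left _ hT)
        ((Polynomial.natDegree_C_mul_le _ _).trans hTe) ?_
      rw [Polynomial.coeff_C_mul, hTR, hc, ← C_mul, inv_mul_cancel₀ hc0, C_1]
    rcases Nat.eq_zero_or_pos n with h0 | h0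
    · rw [h0] at hn
      exact hconst _ (totalDegree_eq_zero_iff_eq_C.1 hn)
    · have h3 : ∀ j, pderiv j R = 0 := by
        intro j
        refine ih (pderiv j R).totalDegree (totalDegree_pderiv_lt hn h0 j) (pderiv j R) ?_ ?_ ?_ rfl
        · rw [pderiv_comm', h1, map_zero]
        · rw [pderiv_comm', h2, map_zero]
        · obtain ⟨e, T, hT, hTe, hTR⟩ := hR
          obtain ⟨a1, a2⟩ := jac3_coeff (A₁ := A₁) (A₂ := A₂) (B₁ := B₁) (B₂ := B₂) hTe u₁ u₂ j
            (by rw [hTR, h1]) (by rw [hTR, h2])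
          refine ⟨_, _, D.hjac T hT j, a2, ?_⟩
          rw [a1, D.det, one_mul, hTR]
      exact hconst _ (eq_C_of_pderiv R h3)

/-- the leading coefficients of the elements of the ideal -/
theorem Data.lead (D : Data wgt q B₁ B₂ A₁ A₂ κ₁ κ₂ κt u₁ u₂)
    (T : Polynomial (MvPolynomial V K)) (hT : T ∈ q) (e : ℕ) (hTe : T.natDegree ≤ e) :
    ∃ s₁ s₂, T.coeff e = s₁ * B₁ + s₂ * B₂ := by
  obtain ⟨R, s₁, s₂, hQ, hR1, hR2⟩ := elim2 D.pos D.hB₁ D.hB₂ D.h11 D.h12 D.h21 D.h22 (T.coeff e)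
  have hR : R = 0 := by
    apply D.lead_zero R hR1 hR2
    refine ⟨e + 1, Polynomial.X * T - Polynomial.X ^ e * (Polynomial.C s₁ *
      (Polynomial.C B₁ * Polynomial.X + Polynomial.C A₁) + Polynomial.C s₂ *
      (Polynomial.C B₂ * Polynomial.X + Polynomial.C A₂)), ?_, ?_, ?_⟩
    · exact q.sub_mem (q.mul_mem_left _ hT) (q.mul_mem_left _ (q.add_mem (q.mul_mem_left _ D.hF₁)
        (q.mul_mem_left _ D.hF₂)))
    · refine (Polynomial.natDegree_sub_le_of_le (m := e + 1) (n := e + 1) ?_ ?_).trans (by simp)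
      · rw [add_comm e 1]
        exact Polynomial.natDegree_mul_le_of_le Polynomial.natDegree_X_le hTe
      · refine Polynomial.natDegree_mul_le_of_le (Polynomial.natDegree_X_pow_le e) ?_
        refine (Polynomial.natDegree_add_le_of_le (m := 1) (n := 1) ?_ ?_).trans (by simp)
        · exact (Polynomial.natDegree_C_mul_le _ _).trans (natDegree_F _ _)
        · exact (Polynomial.natDegree_C_mul_le _ _).trans (natDegree_F _ _)
    · rw [Polynomial.coeff_sub, Polynomial.coeff_X_mul, add_comm e 1, Polynomial.coeff_X_pow_mul,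
        Polynomial.coeff_add, Polynomial.coeff_C_mul, Polynomial.coeff_C_mul, coeff_F, coeff_F, hQ]
      ring
  exact ⟨s₁, s₂, by rw [hQ, hR, zero_add]⟩

/-- reduction to polynomials free of the variable -/
theorem Data.reduce (D : Data wgt q B₁ B₂ A₁ A₂ κ₁ κ₂ κt u₁ u₂)
    (T : Polynomial (MvPolynomial V K)) (hT : T ∈ q) : ∃ s, Polynomial.C s ∈ q ∧
      T - Polynomial.C s ∈ Ideal.span {Polynomial.C B₁ * Polynomial.X + Polynomial.C A₁,
        Polynomial.C B₂ * Polynomial.X + Polynomial.C A₂} := by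
  induction hn : T.natDegree using Nat.strong_induction_on generalizing T with
  | _ n ih =>
    rcases Nat.eq_zero_or_pos n with h0 | h0
    · rw [h0] at hn
      have h1 := Polynomial.eq_C_of_natDegree_eq_zero hn
      refine ⟨T.coeff 0, by rw [← h1]; exact hT, ?_⟩
      rw [← h1, sub_self]
      exact Ideal.zero_mem _
    · obtain ⟨s₁, s₂, hs⟩ := D.lead T hT n hn.le
      set E := Polynomial.X ^ (n - 1) * (Polynomial.C s₁ *
        (Polynomial.C B₁ * Polynomial.X + Polynomial.C A₁) + Polynomial.C s₂ *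
        (Polynomial.C B₂ * Polynomial.X + Polynomial.C A₂)) with hE
      have hEq : E ∈ q := q.mul_mem_left _ (q.add_mem (q.mul_mem_left _ D.hF₁)
        (q.mul_mem_left _ D.hF₂))
      have hEs : E ∈ Ideal.span {Polynomial.C B₁ * Polynomial.X + Polynomial.C A₁,
          Polynomial.C B₂ * Polynomial.X + Polynomial.C A₂} := by
        refine Ideal.mul_mem_left _ _ (Ideal.add_mem _ (Ideal.mul_mem_left _ _ ?_)
          (Ideal.mul_mem_left _ _ ?_))
        · exact Ideal.subset_span (by simp)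
        · exact Ideal.subset_span (by simp)
      have hEd : E.natDegree ≤ n := by
        have h3 : n = (n - 1) + 1 := by omega
        rw [h3]
        refine Polynomial.natDegree_mul_le_of_le (Polynomial.natDegree_X_pow_le _) ?_
        refine (Polynomial.natDegree_add_le_of_le (m := 1) (n := 1) ?_ ?_).trans (by simp)
        · exact (Polynomial.natDegree_C_mul_le _ _).trans (natDegree_F _ _)
        · exact (Polynomial.natDegree_C_mul_le _ _).trans (natDegree_F _ _)
      have hEc : E.coeff n = T.coeff n := by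
        have h3 : n = 1 + (n - 1) := by omega
        rw [hs]
        conv_lhs => rw [h3]
        rw [hE, Polynomial.coeff_X_pow_mul, Polynomial.coeff_add, Polynomial.coeff_C_mul,
          Polynomial.coeff_C_mul, coeff_F, coeff_F]
      have hlt : (T - E).natDegree < n := by
        have h4 : (T - E).natDegree ≤ n :=
          (Polynomial.natDegree_sub_le_of_le hn.le hEd).trans (by simp)
        refine lt_of_le_of_ne h4 fun h5 => ?_
        have h6 : (T - E).coeff n = 0 := by rw [Polynomial.coeff_sub, hEc, sub_self]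
        rw [← h5] at h6
        have h7 := Polynomial.leadingCoeff_eq_zero.1 h6
        rw [h7, Polynomial.natDegree_zero] at h5
        omega
      obtain ⟨s, hs1, hs2⟩ := ih _ hlt (T - E) (q.sub_mem hT hEq) rfl
      refine ⟨s, hs1, ?_⟩
      have : T - Polynomial.C s = (T - E - Polynomial.C s) + E := by ring
      rw [this]
      exact Ideal.add_mem _ hs2 hEs

/-- the elements free of the variable -/
theorem Data.princ (D : Data wgt q B₁ B₂ A₁ A₂ κ₁ κ₂ κt u₁ u₂) :
    ∃ G d, IsWeightedHomogeneous wgt G d ∧ ∀ s, Polynomial.C s ∈ q ↔ G ∣ s := by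
  have hq := D.prime
  set p : Ideal (MvPolynomial V K) := q.comap Polynomial.C with hp
  haveI : p.IsPrime := Ideal.comap_isPrime _ _
  obtain ⟨G, hG⟩ := principal_mv p (fun R hR S hS i j => D.hjac2 R S hR hS i j)
  have hmem : ∀ s, Polynomial.C s ∈ q ↔ G ∣ s := by
    intro s
    rw [← Ideal.mem_span_singleton, ← hG]
    rfl
  obtain ⟨d, hd⟩ := gen_homog wgt G (fun d => (hmem _).1 (D.hcomp G ((hmem G).2 dvd_rfl) d))
  exact ⟨G, d, hd, hmem⟩

end Pool.Agent.X269.CT
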