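import Pool.Agent.X269.CT.Z

/-!
Prime ideals of codimension two which contain two polynomials linear in a variable.
-/

set_option autoImplicit false

namespace Pool.Agent.X269.CT

open MvPolynomial

variable {K : Type*} [Field K] {V : Type*}

theorem comp_mul_low {wgt : V → ℕ} (hw : ∀ k, 0 < wgt k) {G : MvPolynomial V K} {d : ℕ}
    (hG : IsWeightedHomogeneous wgt G d) (H : MvPolynomial V K) :
    weightedHomogeneousComponent wgt d (G * H) = G * C (coeff 0 H) := by
  classical
  apply MvPolynomial.ext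
  intro u
  rw [coeff_weightedHomogeneousComponent, mul_comm G (C _), coeff_C_mul, mul_comm (coeff 0 H)]
  by_cases hu : Finsupp.weight wgt u = d
  · rw [if_pos hu, coeff_mul, Finset.sum_eq_single (u, 0)]
    · rintro ⟨v₁, v₂⟩ hv hne
      replace hv : v₁ + v₂ = u := Finset.HasAntidiagonal.mem_antidiagonal.1 hv
      have hv2 : v₂ ≠ 0 := by
        rintro rfl
        apply hne
        rw [add_zero] at hv
        rw [hv]
      have h1 : 0 < Finsupp.weight wgt v₂ := by
        rcases Nat.eq_zero_or_pos (Finsupp.weight wgt v₂) with h | h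
        · exact absurd (eq_zero_of_weight hw h) hv2
        · exact h
      have h2 : coeff v₁ G = 0 := by
        by_contra h
        have h3 := hG h
        rw [← hv, map_add] at hu
        omega
      simp only [h2, zero_mul]
    · intro h
      exact absurd (by simp) h
  · rw [if_neg hu]
    have : coeff u G = 0 := by
      by_contra h
      exact hu (hG h)
    rw [this, zero_mul]

variable [Fintype V] [DecidableEq V] [CharZero K]

variable {wgt : V → ℕ} {q : Ideal (Polynomial (MvPolynomial V K))}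
    {B₁ B₂ A₁ A₂ : MvPolynomial V K} {κ₁ κ₂ κt : ℕ} {u₁ u₂ : V}

/-- The ideal is generated by the two linear polynomials, or it is the ideal of the maximal minors
of a matrix of size two times three whose entries vanish at the origin. -/
theorem Data.main (D : Data wgt q B₁ B₂ A₁ A₂ κ₁ κ₂ κt u₁ u₂) :
    q = Ideal.span {Polynomial.C B₁ * Polynomial.X + Polynomial.C A₁,
      Polynomial.C B₂ * Polynomial.X + Polynomial.C A₂} ∨
    ∃ h g₁ g₂ θ : MvPolynomial V K, eval 0 h = 0 ∧ eval 0 g₁ = 0 ∧ eval 0 g₂ = 0 ∧ eval 0 θ = 0 ∧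
      Polynomial.C B₁ * Polynomial.X + Polynomial.C A₁ =
        Polynomial.C B₁ * (Polynomial.X + Polynomial.C θ) - Polynomial.C h * Polynomial.C g₂ ∧
      Polynomial.C B₂ * Polynomial.X + Polynomial.C A₂ =
        Polynomial.C B₂ * (Polynomial.X + Polynomial.C θ) + Polynomial.C h * Polynomial.C g₁ ∧
      q = Ideal.span {Polynomial.C B₁ * Polynomial.X + Polynomial.C A₁,
        Polynomial.C B₂ * Polynomial.X + Polynomial.C A₂,
        Polynomial.C g₁ * Polynomial.C B₁ + Polynomial.C g₂ * Polynomial.C B₂} := by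
  classical
  have hq := D.prime
  set F₁ : Polynomial (MvPolynomial V K) := Polynomial.C B₁ * Polynomial.X + Polynomial.C A₁
    with hF₁
  set F₂ : Polynomial (MvPolynomial V K) := Polynomial.C B₂ * Polynomial.X + Polynomial.C A₂
    with hF₂
  have k1 : wgt u₁ = κ₁ := weight_of_lin D.hB₁ (by rw [D.h11]; exact one_ne_zero)
  have k2 : wgt u₂ = κ₂ := weight_of_lin D.hB₂ (by rw [D.h22]; exact one_ne_zero)
  have e1 : eval 0 B₁ = 0 := eval_zero_of_weight (by rw [← k1]; exact D.pos _) D.hB₁
  have e2 : eval 0 B₂ = 0 := eval_zero_of_weight (by rw [← k2]; exact D.pos _) D.hB₂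
  have hB₁q : Polynomial.C B₁ ∉ q := by
    intro h
    have := D.hlin B₁ h u₁
    rw [D.h11] at this
    exact one_ne_zero this
  have prB : Prime B₁ := prime_of_lin D.pos D.hB₁ D.h11
  have hnd : ¬ B₁ ∣ B₂ := by
    rintro ⟨c, hc⟩
    have := D.h22
    rw [hc, lin_mul, e1, D.h12, zero_mul, mul_zero, add_zero] at this
    exact zero_ne_one this
  have hcop : ∀ C₁ C₂ : MvPolynomial V K, B₁ * C₁ = B₂ * C₂ → ∃ θ, C₂ = B₁ * θ ∧ C₁ = B₂ * θ := by
    intro C₁ C₂ h
    have h1 : B₁ ∣ B₂ * C₂ := ⟨C₁, h.symm⟩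
    obtain ⟨θ, hθ⟩ := (prB.dvd_or_dvd h1).resolve_left hnd
    refine ⟨θ, hθ, ?_⟩
    apply mul_left_cancel₀ prB.ne_zero
    rw [h, hθ]
    ring
  obtain ⟨G, d, hG, hmem⟩ := D.princ
  set Δ := B₁ * A₂ - B₂ * A₁ with hΔ
  have hΔF : Polynomial.C Δ = Polynomial.C B₁ * F₂ - Polynomial.C B₂ * F₁ := by
    rw [hΔ, hF₁, hF₂]
    simp only [map_sub, map_mul]
    ring
  have hΔq : Polynomial.C Δ ∈ q := by
    rw [hΔF]
    exact q.sub_mem (q.mul_mem_left _ D.hF₂) (q.mul_mem_left _ D.hF₁)
  obtain ⟨H, hH⟩ := (hmem Δ).1 hΔq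
  have hΔ0 : Δ ≠ 0 := by
    intro h0
    rw [hΔ, sub_eq_zero] at h0
    obtain ⟨θ, h1, -⟩ := hcop _ _ h0
    have h2 : F₁ = Polynomial.C B₁ * (Polynomial.X + Polynomial.C θ) := by
      rw [hF₁, h1, map_mul]
      ring
    have h3 := D.hF₁
    rw [← hF₁, h2] at h3
    rcases hq.mem_or_mem h3 with h | h
    · exact hB₁q h
    · exact D.hX θ h
  have hG0 : G ≠ 0 := by
    rintro rfl
    rw [zero_mul] at hH
    exact hΔ0 hH
  have hGq : Polynomial.C G ∈ q := (hmem G).2 dvd_rfl
  obtain ⟨g₁, g₂, hg⟩ := D.lead (Polynomial.C G) hGq 0 (by rw [Polynomial.natDegree_C])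
  rw [Polynomial.coeff_C_zero] at hg
  have hspan : ∀ T ∈ q, T ∈ Ideal.span {F₁, F₂, Polynomial.C G} := by
    intro T hT
    obtain ⟨s, hs, hTs⟩ := D.reduce T hT
    obtain ⟨c, rfl⟩ := (hmem s).1 hs
    have h1 : T = (T - Polynomial.C (G * c)) + Polynomial.C c * Polynomial.C G := by
      rw [map_mul]; ring
    rw [h1]
    refine Ideal.add_mem _ (Ideal.span_mono ?_ hTs) (Ideal.mul_mem_left _ _
      (Ideal.subset_span (by simp)))
    intro x hx
    rcases hx with hx | hx
    · exact Or.inl hx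
    · exact Or.inr (Or.inl hx)
  by_cases hH0 : eval 0 H = 0
  · right
    have hgB : B₁ * (A₂ - H * g₁) = B₂ * (A₁ + H * g₂) := by
      have h1 : B₁ * A₂ - B₂ * A₁ = (g₁ * B₁ + g₂ * B₂) * H := by rw [← hg, ← hH]
      linear_combination h1
    obtain ⟨θ, hθ1, hθ2⟩ := hcop _ _ hgB
    have hg1 : eval 0 g₁ = 0 := by
      have := D.hlin G hGq u₁
      rw [hg, lin_add, lin_mul, lin_mul, e1, e2, D.h11, D.h21] at this
      simpa using this
    have hg2 : eval 0 g₂ = 0 := by
      have := D.hlin G hGq u₂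
      rw [hg, lin_add, lin_mul, lin_mul, e1, e2, D.h12, D.h22] at this
      simpa using this
    refine ⟨H, g₁, g₂, θ, hH0, hg1, hg2, ?_, ?_, ?_, ?_⟩
    · have h1 := congrArg (lin u₁) hθ1
      rw [lin_add, lin_mul, lin_mul, D.hlinA, hH0, hg2, e1, D.h11] at h1
      simpa using h1.symm
    · have h1 : A₁ = B₁ * θ - H * g₂ := by rw [← hθ1]; ring
      rw [hF₁]
      conv_lhs => rw [h1]
      simp only [map_sub, map_mul]
      ring
    · have h1 : A₂ = B₂ * θ + H * g₁ := by rw [← hθ2]; ring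
      rw [hF₂]
      conv_lhs => rw [h1]
      simp only [map_add, map_mul]
      ring
    · have h1 : Polynomial.C g₁ * Polynomial.C B₁ + Polynomial.C g₂ * Polynomial.C B₂ =
          Polynomial.C G := by rw [hg, map_add, map_mul, map_mul]
      rw [h1]
      apply le_antisymm
      · exact hspan
      · rw [Ideal.span_le]
        rintro x (rfl | rfl | rfl)
        · exact D.hF₁
        · exact D.hF₂
        · exact hGq
  · left
    have hc : coeff 0 H ≠ 0 := by
      rwa [eval_zero, constantCoeff_eq] at hH0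
    have hΔw : IsWeightedHomogeneous wgt Δ (κt + κ₁ + κ₂) := by
      rw [hΔ]
      refine IsWeightedHomogeneous.sub ?_ ?_
      · have := D.hB₁.mul D.hA₂
        rwa [show κ₁ + (κt + κ₂) = κt + κ₁ + κ₂ by ring] at this
      · have := D.hB₂.mul D.hA₁
        rwa [show κ₂ + (κt + κ₁) = κt + κ₁ + κ₂ by ring] at this
    have h1 := comp_mul_low D.pos hG H
    rw [← hH] at h1
    have h2 : G * C (coeff 0 H) ≠ 0 := mul_ne_zero hG0 (by rwa [Ne, C_eq_zero])
    have h3 : weightedHomogeneousComponent wgt d Δ = Δ := by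
      by_cases hd : κt + κ₁ + κ₂ = d
      · rw [← hd]
        exact hΔw.weightedHomogeneousComponent_same
      · exfalso
        apply h2
        rw [← h1]
        exact hΔw.weightedHomogeneousComponent_ne _ (Ne.symm hd)
    rw [h3] at h1
    have h4 : G = C (coeff 0 H)⁻¹ * Δ := by
      rw [h1, mul_comm G, ← mul_assoc, ← C_mul, inv_mul_cancel₀ hc, C_1, one_mul]
    have h5 : Polynomial.C G ∈ Ideal.span {F₁, F₂} := by
      rw [h4, map_mul, hΔF]
      refine Ideal.mul_mem_left _ _ (Ideal.sub_mem _ (Ideal.mul_mem_left _ _ ?_)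
        (Ideal.mul_mem_left _ _ ?_))
      · exact Ideal.subset_span (by simp)
      · exact Ideal.subset_span (by simp)
    apply le_antisymm
    · intro T hT
      refine (Ideal.span_le.2 ?_) (hspan T hT)
      rintro x (rfl | rfl | rfl)
      · exact Ideal.subset_span (by simp)
      · exact Ideal.subset_span (by simp)
      · exact h5
    · rw [Ideal.span_le]
      rintro x (rfl | rfl)
      · exact D.hF₁
      · exact D.hF₂

end Pool.Agent.X269.CT
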